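import Mathlib
import Pool.Agent.H29.CPR.Main
import Pool.Agent.H99.TF.Limit

/-!
# Transfer, restricted to a family of types
-/

open Finset Filter

namespace Pool.Agent.H99.TF

open Pool.Agent.H22.F10f644 Pool.Agent.H29.CPR

/-- The transfer theorem of `Pool.Agent.H29.CPR.transfer`, restricted to a family of types. -/
theorem transferOn {k : ℕ} {V C : ℝ} {𝒮 : Finset (Finset (Fin k))} (hemp : ∅ ∈ 𝒮) (hV : 0 ≤ V)
    (hDB : DualBoundOn 𝒮 V C) (ε : ℝ) (hε : 0 < ε) :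
    ∃ n0 : ℕ, ∀ n : ℕ, n0 ≤ n → ∀ S : Fin n → Finset (Fin k), (∀ v, S v ∈ 𝒮) →
      (cp (tg S) : ℝ) ≤ (V + ε) * (n : ℝ) ^ 2 := by
  classical
  -- parameters
  set C' : ℝ := |C| with hC'
  have hC0 : 0 ≤ C' := abs_nonneg _
  have hCC : C ≤ C' := le_abs_self _
  set η : ℝ := min 1 (ε / (12 * (V + 1))) with hη
  have hη0 : 0 < η := by positivity
  have hη1 : η ≤ 1 := min_le_left _ _
  have hη2 : V * (3 * η) ≤ ε / 4 := by
    have h1 : η ≤ ε / (12 * (V + 1)) := min_le_right _ _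
    have h2 : (V + 1) * (3 * η) ≤ (V + 1) * (3 * (ε / (12 * (V + 1)))) := by
      apply mul_le_mul_of_nonneg_left _ (by linarith)
      linarith
    have h3 : (V + 1) * (3 * (ε / (12 * (V + 1)))) = ε / 4 := by
      field_simp
      norm_num
    have h4 : (V + 1) * (3 * η) = V * (3 * η) + 3 * η := by ring
    linarith
  obtain ⟨D0, hD0⟩ := exists_nat_ge (32 * (C' + 1) / ε + 16 * 2 ^ k / ε)
  set D : ℕ := D0 + 2 with hD
  have hDpos : (0 : ℝ) < D := by rw [hD]; positivity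
  have hD1 : (1 : ℝ) ≤ D := by rw [hD]; push_cast; linarith [(Nat.cast_nonneg D0 : (0 : ℝ) ≤ D0)]
  have hDr : 32 * (C' + 1) / ε + 16 * 2 ^ k / ε ≤ D := by
    refine hD0.trans ?_
    rw [hD]
    push_cast
    linarith
  have hD2 : 32 * (C' + 1) ≤ ε * D := by
    have h1 : 32 * (C' + 1) / ε ≤ D := by
      have : 0 ≤ 16 * 2 ^ k / ε := by positivity
      linarith
    rw [div_le_iff₀ hε] at h1
    linarith
  have hD3 : 16 * 2 ^ k ≤ ε * D := by
    have h1 : 16 * 2 ^ k / ε ≤ D := by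
      have : 0 ≤ 32 * (C' + 1) / ε := by positivity
      linarith
    rw [div_le_iff₀ hε] at h1
    linarith
  -- threshold for `N`
  have hblow : ∀ T : Fin D → Finset (Fin k), ∃ N0 : ℕ, (∀ u, T u ∈ 𝒮) →
      ∀ (N : ℕ) [NeZero N], N0 ≤ N → (∀ d, 0 < d → d < D → Nat.Coprime d N) →
      ∃ F : Finset (Finset (Fin D × Part D N)), IsCliquePartition (blow (tg T) (Part D N)) F ∧
        (F.card : ℝ) ≤ (V * (D : ℝ) ^ 2 + C * D + 1) * (Fintype.card (Part D N) : ℝ) ^ 2 := by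
    intro T
    by_cases hT : ∀ u, T u ∈ 𝒮
    · obtain ⟨N0, hN0⟩ := exists_blow_partition (tg T) (V * (D : ℝ) ^ 2 + C * D)
        (fun y hy => hDB D T y hT hy) 1 one_pos
      exact ⟨N0, fun _ => hN0⟩
    · exact ⟨0, fun h => absurd h hT⟩
  choose N0 hN0 using hblow
  set N1 : ℕ := Finset.univ.sup N0 with hN1
  have hN1' : ∀ T, N0 T ≤ N1 := fun T => Finset.le_sup (Finset.mem_univ T)
  set d : ℕ := Fintype.card (Ed D) with hd
  have hdpos : 0 < d := by
    rw [hd, Fintype.card_pos_iff]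
    refine ⟨⟨(⟨0, by omega⟩, ⟨1, by omega⟩), ?_⟩⟩
    exact Fin.mk_lt_mk.2 Nat.zero_lt_one
  let Nt : ℕ → ℕ := fun t => 1 + t * D.factorial
  have hfac : 1 ≤ D.factorial := Nat.succ_le_of_lt (Nat.factorial_pos D)
  have hNt : ∀ t, t ≤ Nt t := by
    intro t
    simp only [Nt]
    nlinarith
  have hNt0 : ∀ t, Nt t ≠ 0 := by
    intro t
    simp only [Nt]
    omega
  have hNtmono : Monotone Nt := by
    intro a b hab
    simp only [Nt]
    have := Nat.mul_le_mul_right D.factorial hab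
    omega
  obtain ⟨X, hX0, hX⟩ := exists_ratio d η hη0
  obtain ⟨t1, ht1⟩ := exists_nat_ge ((D.factorial : ℝ) * X)
  set t0 : ℕ := max t1 N1 with ht0
  have hratio : ∀ t, t0 ≤ t → ((Nt (t + 1) : ℕ) : ℝ) ^ d ≤ (1 + η) * ((Nt t : ℕ) : ℝ) ^ d := by
    intro t ht
    have h1 : ((Nt (t + 1) : ℕ) : ℝ) = (Nt t : ℕ) + (D.factorial : ℝ) := by
      simp only [Nt]
      push_cast
      ring
    rw [h1]
    apply hX
    · exact_mod_cast Nat.factorial_pos D
    · refine ht1.trans ?_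
      have : t1 ≤ Nt t := (le_max_left t1 N1).trans (ht.trans (hNt t))
      exact_mod_cast this
  obtain ⟨n2, hn2⟩ := exists_nat_ge (4 * (D : ℝ) / ε)
  refine ⟨max (D * (Nt t0) ^ d + 1) (n2 + 1), fun n hn S hSS => ?_⟩
  have hnA : D * (Nt t0) ^ d < n := by
    have := (le_max_left _ _).trans hn
    omega
  have hnB : 4 * (D : ℝ) / ε ≤ n := by
    refine hn2.trans ?_
    have := (le_max_right (D * (Nt t0) ^ d + 1) (n2 + 1)).trans hn
    have h' : n2 ≤ n := by omega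
    exact_mod_cast h'
  have hn1 : (1 : ℝ) ≤ n := by
    have := (le_max_right (D * (Nt t0) ^ d + 1) (n2 + 1)).trans hn
    have h' : 1 ≤ n := by omega
    exact_mod_cast h'
  -- choose `t`
  have hex : ∃ t, n ≤ D * (Nt t) ^ d := by
    refine ⟨n, ?_⟩
    calc n ≤ Nt n := hNt n
      _ = (Nt n) ^ 1 := (pow_one _).symm
      _ ≤ (Nt n) ^ d := Nat.pow_le_pow_right (Nat.pos_of_ne_zero (hNt0 n)) hdpos
      _ = 1 * (Nt n) ^ d := (one_mul _).symm
      _ ≤ D * (Nt n) ^ d := Nat.mul_le_mul_right _ (by omega)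
  set t := Nat.find hex with ht
  have htspec : n ≤ D * (Nt t) ^ d := Nat.find_spec hex
  have htgt : t0 < t := by
    by_contra hle
    push Not at hle
    have : (Nt t) ^ d ≤ (Nt t0) ^ d := Nat.pow_le_pow_left (hNtmono hle) d
    have h' := Nat.mul_le_mul_left D this
    omega
  obtain ⟨t', rfl_t⟩ : ∃ t', t = t' + 1 := ⟨t - 1, by omega⟩
  have ht't0 : t0 ≤ t' := by omega
  have hlt : D * (Nt t') ^ d < n := by
    have := Nat.find_min hex (m := t') (by omega)
    omega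
  set N : ℕ := Nt t with hNdef
  have : NeZero N := ⟨hNt0 t⟩
  set s : ℕ := N ^ d with hs
  have hspos : 0 < s := Nat.pow_pos (Nat.pos_of_ne_zero (hNt0 t))
  have hsn : (D : ℝ) * s ≤ (1 + η) * n := by
    have h1 := hratio t' ht't0
    rw [← rfl_t] at h1
    have h2 : (D : ℝ) * ((Nt t' : ℕ) : ℝ) ^ d ≤ n := by exact_mod_cast hlt.le
    have h3 : ((s : ℕ) : ℝ) = ((Nt t : ℕ) : ℝ) ^ d := by
      rw [hs, hNdef]
      push_cast
      rfl
    rw [h3]
    calc (D : ℝ) * ((Nt t : ℕ) : ℝ) ^ d ≤ D * ((1 + η) * ((Nt t' : ℕ) : ℝ) ^ d) :=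
          mul_le_mul_of_nonneg_left h1 hDpos.le
      _ = (1 + η) * (D * ((Nt t' : ℕ) : ℝ) ^ d) := by ring
      _ ≤ (1 + η) * n := mul_le_mul_of_nonneg_left h2 (by linarith)
  have hcardP : Fintype.card (Part D N) = s := by
    rw [hs, hd]
    simp [ZMod.card]
  obtain ⟨T, g, hg1, hg2, hg3, hg4⟩ := exists_grouping S D s hspos (Part D N) hcardP htspec
  have hNge : N0 T ≤ N := by
    refine (hN1' T).trans ((le_max_right t1 N1).trans ?_)
    exact (ht0 ▸ htgt.le).trans (hNt t)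
  have hTS : ∀ u, T u ∈ 𝒮 := by
    intro u
    rcases Finset.eq_empty_or_nonempty (T u) with h0 | h0
    · rw [h0]; exact hemp
    · have hPne : 0 < Fintype.card (Part D N) := by rw [hcardP]; exact hspos
      obtain ⟨p⟩ := Fintype.card_pos_iff.1 hPne
      obtain ⟨v, hv⟩ := hg3 u h0 p
      rw [← hg2 v _ hv]
      exact hSS v
  obtain ⟨F, hF, hFc⟩ := hN0 T hTS N hNge (fun d' h1 h2 => coprime_step h1 h2)
  have hglue := glue S T g hg1 hg2 hg3 F hF
  rw [hcardP] at hFc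
  have hcp : (cp (tg S) : ℝ) ≤ (V * (D : ℝ) ^ 2 + C * D + 1) * (s : ℝ) ^ 2 + D
      + (2 ^ k * s) * n := by
    have h1 : (cp (tg S) : ℝ) ≤ (F.card : ℝ) + D + ((univ.filter fun v => g v = none).card : ℝ) * n := by
      exact_mod_cast hglue
    have h2 : ((univ.filter fun v => g v = none).card : ℝ) ≤ 2 ^ k * s := by
      exact_mod_cast hg4
    have h3 : ((univ.filter fun v => g v = none).card : ℝ) * n ≤ (2 ^ k * s) * n :=
      mul_le_mul_of_nonneg_right h2 (by linarith)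
    linarith
  exact estimates hV hε hC0 hCC hη0 hη1 hη2 hDpos hD1 hD2 hD3 (by positivity)
    (Nat.cast_nonneg s) hn1 hnB hsn hcp

end Pool.Agent.H99.TF
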