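import Mathlib

/-!
# Dual kernels of one edge (MP_10f644_co, clique blow-ups of triangle-free graphs)

A kernel on two types: off-diagonal entry `y`, diagonal entries `-z`, `-z'`.
-/

namespace Pool.Agent.H99.TF

/-- Feasible kernels of one edge: for all multiplicities `p`, `q`, the pair sum
`p q y - C(p,2) z - C(q,2) z'` is at most one. -/
def EK (y z z' : ℝ) : Prop :=
  ∀ p q : ℕ, 2 * (y * ((p : ℝ) * q)) - z * ((p : ℝ) * (p - 1)) - z' * ((q : ℝ) * (q - 1)) ≤ 2

theorem EK.symm {y z z' : ℝ} (h : EK y z z') : EK y z' z := by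
  intro p q
  have := h q p
  nlinarith

theorem EK.z0 {y z z' : ℝ} (h : EK y z z') : 0 ≤ z := by
  by_contra hz
  push Not at hz
  obtain ⟨N, hN⟩ := exists_nat_gt (2 / (-z))
  rw [div_lt_iff₀ (by linarith)] at hN
  have h1 := h (N + 2) 0
  push_cast at h1
  have hN0 : (0 : ℝ) ≤ N := Nat.cast_nonneg N
  have h2 : (N : ℝ) * (-z) ≤ (((N : ℝ) + 2) * (((N : ℝ) + 2) - 1)) * (-z) :=
    mul_le_mul_of_nonneg_right (by nlinarith) (by linarith)
  nlinarith

theorem EK.y1 {y z z' : ℝ} (h : EK y z z') : y ≤ 1 := by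
  have := h 1 1
  push_cast at this
  linarith

theorem EK.psd {y z z' : ℝ} (h : EK y z z') (hy : 0 < y) : y ^ 2 ≤ z * z' := by
  by_contra hcon
  push Not at hcon
  have hz := h.z0
  have hz' := h.symm.z0
  obtain ⟨x, hx, hd⟩ : ∃ x : ℝ, 0 < x ∧ 0 < 2 * y * x - z * x ^ 2 - z' := by
    rcases hz.eq_or_lt with h0 | h0
    · refine ⟨(z' + 1) / (2 * y), by positivity, ?_⟩
      rw [← h0]
      have : 2 * y * ((z' + 1) / (2 * y)) = z' + 1 := by field_simp
      rw [this]
      linarith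
    · refine ⟨y / z, by positivity, ?_⟩
      have : 2 * y * (y / z) - z * (y / z) ^ 2 - z' = (y ^ 2 - z * z') / z := by
        field_simp
        ring
      rw [this]
      exact div_pos (by linarith) h0
  set δ : ℝ := 2 * y * x - z * x ^ 2 - z' with hδ
  obtain ⟨N, hN⟩ := exists_nat_gt ((2 * y + 2) / δ)
  have hNpos : (0 : ℝ) < N := lt_of_le_of_lt (by positivity) hN
  have hN1 : (1 : ℝ) ≤ N := by
    have : 0 < N := by exact_mod_cast hNpos
    exact_mod_cast this
  rw [div_lt_iff₀ hd] at hN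
  set p : ℕ := ⌊(N : ℝ) * x⌋₊ with hp
  have hp1 : (p : ℝ) ≤ N * x := Nat.floor_le (by positivity)
  have hp2 : (N : ℝ) * x - 1 < p := by
    have := Nat.lt_floor_add_one ((N : ℝ) * x)
    rw [← hp] at this
    linarith
  have hp0 : (0 : ℝ) ≤ p := Nat.cast_nonneg p
  have h1 := h p N
  have h2 : z * ((p : ℝ) * (p - 1)) ≤ z * ((N * x) ^ 2) :=
    mul_le_mul_of_nonneg_left (by nlinarith) hz
  have h3 : z' * ((N : ℝ) * (N - 1)) ≤ z' * (N : ℝ) ^ 2 :=
    mul_le_mul_of_nonneg_left (by nlinarith) hz'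
  have h4 : (y * N) * ((N : ℝ) * x - 1) ≤ (y * N) * p :=
    mul_le_mul_of_nonneg_left hp2.le (by positivity)
  have h5 : (N : ℝ) * (2 * y + 2) < N * (N * δ) := mul_lt_mul_of_pos_left hN hNpos
  have h6 : (N : ℝ) * (N * δ) = 2 * ((y * N) * ((N : ℝ) * x)) - z * ((N * x) ^ 2)
      - z' * (N : ℝ) ^ 2 := by
    rw [hδ]
    ring
  nlinarith

/-- a concave quadratic on a segment -/
theorem conc {a b c d z t : ℝ} (hab : a < b) (ha : a ≤ z) (hb : z ≤ b) (hd : 0 ≤ d)
    (h1 : t ≤ a * (c - d * a)) (h2 : t ≤ b * (c - d * b)) : t ≤ z * (c - d * z) := by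
  have h3 : (b - a) * (z * (c - d * z) - t) = (b - z) * (a * (c - d * a) - t)
      + (z - a) * (b * (c - d * b) - t) + d * ((z - a) * (b - z)) * (b - a) := by ring
  have h4 : 0 ≤ (b - a) * (z * (c - d * z) - t) := by
    rw [h3]
    have e1 : 0 ≤ (b - z) * (a * (c - d * a) - t) := mul_nonneg (by linarith) (by linarith)
    have e2 : 0 ≤ (z - a) * (b * (c - d * b) - t) := mul_nonneg (by linarith) (by linarith)
    have e3 : 0 ≤ d * ((z - a) * (b - z)) * (b - a) :=
      mul_nonneg (mul_nonneg hd (mul_nonneg (by linarith) (by linarith))) (by linarith)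
    linarith
  have h5 : 0 ≤ z * (c - d * z) - t := by
    by_contra hcon
    push Not at hcon
    nlinarith
  linarith

theorem EK.lemZ {y z z' : ℝ} (h : EK y z z') (hy : 0 < y) (hy2 : y ≤ 2 / 3) :
    9 * y ^ 3 ≤ 4 * (z * z') := by
  wlog hzz : z ≤ z' generalizing z z'
  · have := this h.symm (by linarith)
    linarith [mul_comm z z']
  have hz := h.z0
  rcases le_total y (4 / 9) with h1 | h1
  · have h2 := h.psd hy
    have h3 : 9 * y ^ 3 = 9 * y * y ^ 2 := by ring
    have h4 : 9 * y * y ^ 2 ≤ 4 * y ^ 2 := mul_le_mul_of_nonneg_right (by linarith) (sq_nonneg y)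
    linarith
  · have p31 := h 3 1
    have p42 := h 4 2
    have p32 := h 3 2
    have p33 := h 3 3
    norm_num at p31 p42 p32 p33
    have a31 : y - 1 / 3 ≤ z := by linarith
    have a42 : 8 * y - 1 - 6 * z ≤ z' := by linarith
    have a32 : 6 * y - 1 - 3 * z ≤ z' := by linarith
    have a33 : 3 * y - 1 / 3 - 1 * z ≤ z' := by linarith
    have v1 : 9 * y ^ 3 / 4 ≤ (y - 1 / 3) * ((8 * y - 1) - 6 * (y - 1 / 3)) := by
      nlinarith [mul_nonneg (sub_nonneg.2 h1) (sub_nonneg.2 hy2),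
        mul_nonneg (mul_nonneg (sub_nonneg.2 h1) (sub_nonneg.2 hy2)) hy.le]
    have v2 : 9 * y ^ 3 / 4 ≤ (2 * y / 3) * ((8 * y - 1) - 6 * (2 * y / 3)) := by
      nlinarith [mul_nonneg (mul_nonneg (sub_nonneg.2 h1) (sub_nonneg.2 hy2)) hy.le,
        mul_pos hy hy]
    have v2' : 9 * y ^ 3 / 4 ≤ (2 * y / 3) * ((6 * y - 1) - 3 * (2 * y / 3)) := by
      nlinarith [mul_nonneg (mul_nonneg (sub_nonneg.2 h1) (sub_nonneg.2 hy2)) hy.le,
        mul_pos hy hy]
    have v3' : 9 * y ^ 3 / 4 ≤ (3 * y / 2 - 1 / 3) * ((6 * y - 1) - 3 * (3 * y / 2 - 1 / 3)) := by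
      nlinarith [mul_nonneg (mul_nonneg (sub_nonneg.2 h1) (sub_nonneg.2 hy2)) hy.le,
        mul_pos hy hy]
    have v3 : 9 * y ^ 3 / 4
        ≤ (3 * y / 2 - 1 / 3) * ((3 * y - 1 / 3) - 1 * (3 * y / 2 - 1 / 3)) := by
      nlinarith [mul_nonneg (mul_nonneg (sub_nonneg.2 h1) (sub_nonneg.2 hy2)) hy.le,
        mul_pos hy hy]
    have v4 : 9 * y ^ 3 / 4 ≤ (3 * y / 2) * ((3 * y - 1 / 3) - 1 * (3 * y / 2)) := by
      nlinarith [mul_nonneg (mul_nonneg (sub_nonneg.2 h1) (sub_nonneg.2 hy2)) hy.le,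
        mul_pos hy hy]
    rcases le_total z (2 * y / 3) with h2 | h2
    · have := conc (by linarith) a31 h2 (by norm_num) v1 v2
      have := mul_le_mul_of_nonneg_left a42 hz
      linarith
    rcases le_total z (3 * y / 2 - 1 / 3) with h3 | h3
    · have := conc (by linarith) h2 h3 (by norm_num) v2' v3'
      have := mul_le_mul_of_nonneg_left a32 hz
      linarith
    rcases le_total z (3 * y / 2) with h4 | h4
    · have := conc (by linarith) h3 h4 (by norm_num) v3 v4
      have := mul_le_mul_of_nonneg_left a33 hz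
      linarith
    · have h5 : (3 * y / 2) * (3 * y / 2) ≤ z * z' :=
        mul_le_mul h4 (h4.trans hzz) (by positivity) hz
      have h6 : y ^ 3 ≤ y ^ 2 := by nlinarith [sq_nonneg y]
      nlinarith

theorem amgm3 {A B Y : ℝ} (hA : 0 ≤ A) (hB : 0 ≤ B) (hY : 0 ≤ Y) :
    A * B * (Y - A - B) ≤ Y ^ 3 / 27 := by
  rcases le_total (Y - A - B) 0 with h | h
  · have h1 : A * B * (Y - A - B) ≤ 0 := mul_nonpos_of_nonneg_of_nonpos (mul_nonneg hA hB) h
    have h2 : 0 ≤ Y ^ 3 / 27 := by positivity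
    linarith
  · obtain ⟨C, hC⟩ : ∃ C, C = Y - A - B := ⟨_, rfl⟩
    rw [← hC] at h ⊢
    have hYe : Y = A + B + C := by linarith
    rw [hYe]
    nlinarith [mul_nonneg hA (sq_nonneg (B - C)), mul_nonneg hB (sq_nonneg (A - C)),
      mul_nonneg h (sq_nonneg (A - B)), mul_nonneg hA (sq_nonneg (A - B)),
      mul_nonneg hA (sq_nonneg (A - C)), mul_nonneg hB (sq_nonneg (A - B)),
      mul_nonneg hB (sq_nonneg (B - C)), mul_nonneg h (sq_nonneg (A - C)),
      mul_nonneg h (sq_nonneg (B - C))]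

theorem ncase {y z z' r s θ : ℝ} (hy : 0 < y) (hy1 : y ≤ 1) (hz : 0 ≤ z) (hz' : 0 ≤ z')
    (h : 9 * y ^ 3 ≤ 4 * (z * z')) (hr : 0 ≤ r) (hs : 0 ≤ s) (hθ : 0 ≤ θ) (hθ1 : θ ≤ 1) :
    r * s * (y - z * r / 2 - z' * s / 2 - θ) ≤ 16 / 243 * (1 - θ) ^ 3 := by
  have hN : 0 ≤ 16 / 243 * (1 - θ) ^ 3 := by
    have : 0 ≤ 1 - θ := by linarith
    positivity
  have hzr : 0 ≤ z * r / 2 := by positivity
  have hzs : 0 ≤ z' * s / 2 := by positivity
  have hrs : 0 ≤ r * s := mul_nonneg hr hs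
  rcases le_total y θ with hY | hY
  · have : r * s * (y - z * r / 2 - z' * s / 2 - θ) ≤ 0 :=
      mul_nonpos_of_nonneg_of_nonpos hrs (by linarith)
    linarith
  · set X := r * s * (y - z * r / 2 - z' * s / 2 - θ) with hX
    by_contra hcon
    push Not at hcon
    have hXpos : 0 < X := lt_of_le_of_lt hN hcon
    have h1 := amgm3 hzr hzs (sub_nonneg.2 hY)
    have h2 : z * r / 2 * (z' * s / 2) * (y - θ - z * r / 2 - z' * s / 2) = z * z' / 4 * X := by
      rw [hX]
      ring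
    rw [h2] at h1
    have h3 : 9 * y ^ 3 / 16 * X ≤ z * z' / 4 * X :=
      mul_le_mul_of_nonneg_right (by linarith) hXpos.le
    have h4 : y - θ ≤ (1 - θ) * y := by nlinarith
    have h5 : (y - θ) ^ 3 ≤ ((1 - θ) * y) ^ 3 := pow_le_pow_left₀ (sub_nonneg.2 hY) h4 3
    have h6 : ((1 - θ) * y) ^ 3 = (1 - θ) ^ 3 * y ^ 3 := by ring
    have hy3 : 0 < y ^ 3 := by positivity
    have h7 : 9 * y ^ 3 / 16 * (16 / 243 * (1 - θ) ^ 3) < 9 * y ^ 3 / 16 * X :=
      mul_lt_mul_of_pos_left hcon (by positivity)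
    have h8 : 9 * y ^ 3 / 16 * (16 / 243 * (1 - θ) ^ 3) = (1 - θ) ^ 3 * y ^ 3 / 27 := by ring
    linarith

theorem conv_or {X I N μ : ℝ} (h : X ≤ (1 - μ) * I + μ * N) (h0 : 0 ≤ μ) (h1 : μ ≤ 1) :
    X ≤ I ∨ X ≤ N := by
  rcases le_total I N with h2 | h2
  · right
    nlinarith
  · left
    nlinarith

/-- **The three kernels.** -/
theorem EK.cl {y z z' : ℝ} (h : EK y z z') {r s θ : ℝ} (hr : 0 ≤ r) (hs : 0 ≤ s)
    (hθ : 0 ≤ θ) (hθ1 : θ ≤ 1) :
    r * s * (y - z * r / 2 - z' * s / 2 - θ) ≤ r * s * (1 - r / 2 - s - θ) ∨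
    r * s * (y - z * r / 2 - z' * s / 2 - θ) ≤ r * s * (1 - r - s / 2 - θ) ∨
    r * s * (y - z * r / 2 - z' * s / 2 - θ) ≤ 16 / 243 * (1 - θ) ^ 3 := by
  have hz := h.z0
  have hz' := h.symm.z0
  have hy1 := h.y1
  have hrs : 0 ≤ r * s := mul_nonneg hr hs
  rcases le_or_gt y 0 with hy | hy
  · right; right
    have hN : 0 ≤ 16 / 243 * (1 - θ) ^ 3 := by
      have : 0 ≤ 1 - θ := by linarith
      positivity
    have hzr : 0 ≤ z * r / 2 := by positivity
    have hzs : 0 ≤ z' * s / 2 := by positivity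
    have : r * s * (y - z * r / 2 - z' * s / 2 - θ) ≤ 0 :=
      mul_nonpos_of_nonneg_of_nonpos hrs (by linarith)
    linarith
  rcases le_total y (2 / 3) with hy2 | hy2
  · right; right
    exact ncase hy hy1 hz hz' (h.lemZ hy hy2) hr hs hθ hθ1
  -- `2/3 ≤ y ≤ 1`
  have p21 := h 2 1
  have p12 := h 1 2
  have p32 := h 3 2
  have p23 := h 2 3
  have p22 := h 2 2
  norm_num at p21 p12 p32 p23 p22
  have a21 : 2 * y - 1 ≤ z := by linarith
  have a12 : 2 * y - 1 ≤ z' := by linarith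
  have a32 : 6 * y - 1 ≤ 3 * z + z' := by linarith
  have a23 : 6 * y - 1 ≤ z + 3 * z' := by linarith
  have a22 : 4 * y - 1 ≤ z + z' := by linarith
  have hμ0 : 0 ≤ 3 * (1 - y) := by linarith
  have hμ1 : 3 * (1 - y) ≤ 1 := by linarith
  have n1 := ncase (y := 2 / 3) (z := 2 / 3) (z' := 1) (by norm_num) (by norm_num) (by norm_num)
    (by norm_num) (by norm_num) hr hs hθ hθ1
  have n2 := ncase (y := 2 / 3) (z := 1 / 3) (z' := 2) (by norm_num) (by norm_num) (by norm_num)
    (by norm_num) (by norm_num) hr hs hθ hθ1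
  have n3 := ncase (y := 2 / 3) (z := 1) (z' := 2 / 3) (by norm_num) (by norm_num) (by norm_num)
    (by norm_num) (by norm_num) hr hs hθ hθ1
  have n4 := ncase (y := 2 / 3) (z := 2) (z' := 1 / 3) (by norm_num) (by norm_num) (by norm_num)
    (by norm_num) (by norm_num) hr hs hθ hθ1
  rcases le_total r s with hrs' | hrs'
  · rcases le_total (3 * r) s with h3 | h3
    · -- vertex `(2, 2y-1)`
      have hL : 2 * r + (2 * y - 1) * s ≤ z * r + z' * s := by
        have e1 := mul_le_mul_of_nonneg_right a23 hr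
        have e2 := mul_le_mul_of_nonneg_right a12 (sub_nonneg.2 h3)
        nlinarith
      have hX : r * s * (y - z * r / 2 - z' * s / 2 - θ)
          ≤ (1 - 3 * (1 - y)) * (r * s * (1 - r - s / 2 - θ))
            + 3 * (1 - y) * (16 / 243 * (1 - θ) ^ 3) := by
        have e1 : r * s * (y - z * r / 2 - z' * s / 2 - θ)
            ≤ r * s * (y - 2 * r / 2 - (2 * y - 1) * s / 2 - θ) :=
          mul_le_mul_of_nonneg_left (by linarith) hrs
        have e2 : r * s * (y - 2 * r / 2 - (2 * y - 1) * s / 2 - θ)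
            = (1 - 3 * (1 - y)) * (r * s * (1 - r - s / 2 - θ))
              + 3 * (1 - y) * (r * s * (2 / 3 - 2 * r / 2 - 1 / 3 * s / 2 - θ)) := by ring
        have e3 := mul_le_mul_of_nonneg_left n4 hμ0
        linarith
      rcases conv_or hX hμ0 hμ1 with h4 | h4
      · exact Or.inr (Or.inl h4)
      · exact Or.inr (Or.inr h4)
    · -- vertex `(3y-1, y)`
      have hL : (3 * y - 1) * r + y * s ≤ z * r + z' * s := by
        have e1 := mul_le_mul_of_nonneg_right a23 (sub_nonneg.2 hrs')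
        have e2 := mul_le_mul_of_nonneg_right a22 (sub_nonneg.2 h3)
        nlinarith
      have hX : r * s * (y - z * r / 2 - z' * s / 2 - θ)
          ≤ (1 - 3 * (1 - y)) * (r * s * (1 - r - s / 2 - θ))
            + 3 * (1 - y) * (16 / 243 * (1 - θ) ^ 3) := by
        have e1 : r * s * (y - z * r / 2 - z' * s / 2 - θ)
            ≤ r * s * (y - (3 * y - 1) * r / 2 - y * s / 2 - θ) :=
          mul_le_mul_of_nonneg_left (by linarith) hrs
        have e2 : r * s * (y - (3 * y - 1) * r / 2 - y * s / 2 - θ)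
            = (1 - 3 * (1 - y)) * (r * s * (1 - r - s / 2 - θ))
              + 3 * (1 - y) * (r * s * (2 / 3 - 1 * r / 2 - 2 / 3 * s / 2 - θ)) := by ring
        have e3 := mul_le_mul_of_nonneg_left n3 hμ0
        linarith
      rcases conv_or hX hμ0 hμ1 with h4 | h4
      · exact Or.inr (Or.inl h4)
      · exact Or.inr (Or.inr h4)
  · rcases le_total (3 * s) r with h3 | h3
    · -- vertex `(2y-1, 2)`
      have hL : (2 * y - 1) * r + 2 * s ≤ z * r + z' * s := by
        have e1 := mul_le_mul_of_nonneg_right a32 hs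
        have e2 := mul_le_mul_of_nonneg_right a21 (sub_nonneg.2 h3)
        nlinarith
      have hX : r * s * (y - z * r / 2 - z' * s / 2 - θ)
          ≤ (1 - 3 * (1 - y)) * (r * s * (1 - r / 2 - s - θ))
            + 3 * (1 - y) * (16 / 243 * (1 - θ) ^ 3) := by
        have e1 : r * s * (y - z * r / 2 - z' * s / 2 - θ)
            ≤ r * s * (y - (2 * y - 1) * r / 2 - 2 * s / 2 - θ) :=
          mul_le_mul_of_nonneg_left (by linarith) hrs
        have e2 : r * s * (y - (2 * y - 1) * r / 2 - 2 * s / 2 - θ)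
            = (1 - 3 * (1 - y)) * (r * s * (1 - r / 2 - s - θ))
              + 3 * (1 - y) * (r * s * (2 / 3 - 1 / 3 * r / 2 - 2 * s / 2 - θ)) := by ring
        have e3 := mul_le_mul_of_nonneg_left n2 hμ0
        linarith
      rcases conv_or hX hμ0 hμ1 with h4 | h4
      · exact Or.inl h4
      · exact Or.inr (Or.inr h4)
    · -- vertex `(y, 3y-1)`
      have hL : y * r + (3 * y - 1) * s ≤ z * r + z' * s := by
        have e1 := mul_le_mul_of_nonneg_right a32 (sub_nonneg.2 hrs')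
        have e2 := mul_le_mul_of_nonneg_right a22 (sub_nonneg.2 h3)
        nlinarith
      have hX : r * s * (y - z * r / 2 - z' * s / 2 - θ)
          ≤ (1 - 3 * (1 - y)) * (r * s * (1 - r / 2 - s - θ))
            + 3 * (1 - y) * (16 / 243 * (1 - θ) ^ 3) := by
        have e1 : r * s * (y - z * r / 2 - z' * s / 2 - θ)
            ≤ r * s * (y - y * r / 2 - (3 * y - 1) * s / 2 - θ) :=
          mul_le_mul_of_nonneg_left (by linarith) hrs
        have e2 : r * s * (y - y * r / 2 - (3 * y - 1) * s / 2 - θ)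
            = (1 - 3 * (1 - y)) * (r * s * (1 - r / 2 - s - θ))
              + 3 * (1 - y) * (r * s * (2 / 3 - 2 / 3 * r / 2 - 1 * s / 2 - θ)) := by ring
        have e3 := mul_le_mul_of_nonneg_left n1 hμ0
        linarith
      rcases conv_or hX hμ0 hμ1 with h4 | h4
      · exact Or.inl h4
      · exact Or.inr (Or.inr h4)

/-- the functional of one edge: masses `u`, `v` of the ends, masses `M`, `M'` of their
neighbourhoods -/
noncomputable def Fe (y z z' u v M M' : ℝ) : ℝ := u * v * (y - z * (u / M) / 2 - z' * (v / M') / 2)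

theorem Fe_symm (y z z' u v M M' : ℝ) : Fe y z z' u v M M' = Fe y z' z v u M' M := by
  unfold Fe
  ring

theorem EK.clw {y z z' : ℝ} (h : EK y z z') {u v M M' θ : ℝ} (hu : 0 ≤ u) (hv : 0 ≤ v)
    (hM : 0 < M) (hM' : 0 < M') (hθ : 0 ≤ θ) (hθ1 : θ ≤ 1) :
    Fe y z z' u v M M' ≤ θ * (u * v) + u * v * (1 - u / M / 2 - v / M' - θ) ∨
    Fe y z z' u v M M' ≤ θ * (u * v) + u * v * (1 - u / M - v / M' / 2 - θ) ∨
    Fe y z z' u v M M' ≤ θ * (u * v) + 16 / 243 * (1 - θ) ^ 3 * (M * M') := by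
  have hr : 0 ≤ u / M := div_nonneg hu hM.le
  have hs : 0 ≤ v / M' := div_nonneg hv hM'.le
  have hMM : 0 < M * M' := mul_pos hM hM'
  have e : u * v = M * M' * (u / M * (v / M')) := by field_simp
  have e0 : Fe y z z' u v M M' = θ * (u * v)
      + M * M' * (u / M * (v / M') * (y - z * (u / M) / 2 - z' * (v / M') / 2 - θ)) := by
    unfold Fe
    have : M * M' * (u / M * (v / M') * (y - z * (u / M) / 2 - z' * (v / M') / 2 - θ))
        = u * v * (y - z * (u / M) / 2 - z' * (v / M') / 2 - θ) := by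
      rw [← mul_assoc, ← e]
    rw [this]
    ring
  rw [e0]
  rcases h.cl hr hs hθ hθ1 with h1 | h1 | h1
  · left
    have h2 := mul_le_mul_of_nonneg_left h1 hMM.le
    rw [← mul_assoc (M * M') (u / M * (v / M')) (1 - u / M / 2 - v / M' - θ), ← e] at h2
    linarith
  · right; left
    have h2 := mul_le_mul_of_nonneg_left h1 hMM.le
    rw [← mul_assoc (M * M') (u / M * (v / M')) (1 - u / M - v / M' / 2 - θ), ← e] at h2
    linarith
  · right; right
    have h2 := mul_le_mul_of_nonneg_left h1 hMM.le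
    linarith

/-- the three bounds -/
theorem EK.F0 {y z z' : ℝ} (h : EK y z z') {u v M M' : ℝ} (hu : 0 ≤ u) (hv : 0 ≤ v)
    (hM : 0 < M) (hM' : 0 < M') :
    Fe y z z' u v M M' ≤ u * v * (1 - u / M / 2 - v / M') ∨
    Fe y z z' u v M M' ≤ u * v * (1 - u / M - v / M' / 2) ∨
    Fe y z z' u v M M' ≤ 16 / 243 * (M * M') := by
  rcases h.clw hu hv hM hM' le_rfl zero_le_one with h1 | h1 | h1
  · left
    simpa using h1
  · right; left
    simpa using h1
  · right; right
    simpa using h1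

theorem int_bound {u v M M' θ : ℝ} (hu : 0 ≤ u) (hv : 0 ≤ v) (hM : 0 < M) (hM' : 0 < M')
    (hθ1 : θ ≤ 1) :
    u * v * (1 - u / M / 2 - v / M' - θ) ≤ 2 / 27 * (1 - θ) ^ 3 * (M * M') := by
  have hr : 0 ≤ u / M := div_nonneg hu hM.le
  have hs : 0 ≤ v / M' := div_nonneg hv hM'.le
  have hMM : 0 < M * M' := mul_pos hM hM'
  have h1 := amgm3 (A := u / M / 2) (B := v / M') (Y := 1 - θ) (by positivity) hs (by linarith)
  have e : u * v * (1 - u / M / 2 - v / M' - θ)
      = 2 * (M * M') * (u / M / 2 * (v / M') * (1 - θ - u / M / 2 - v / M')) := by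
    field_simp
    ring
  rw [e]
  have h2 := mul_le_mul_of_nonneg_left h1 (by positivity : 0 ≤ 2 * (M * M'))
  linarith

theorem EK.F27 {y z z' : ℝ} (h : EK y z z') {u v M M' : ℝ} (hu : 0 ≤ u) (hv : 0 ≤ v)
    (hM : 0 < M) (hM' : 0 < M') : Fe y z z' u v M M' ≤ 2 / 27 * (M * M') := by
  have hMM : 0 < M * M' := mul_pos hM hM'
  rcases h.F0 hu hv hM hM' with h1 | h1 | h1
  · have h2 := int_bound (θ := 0) hu hv hM hM' zero_le_one
    simp only [sub_zero, one_pow, mul_one] at h2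
    linarith
  · have h2 := int_bound (θ := 0) hv hu hM' hM zero_le_one
    simp only [sub_zero, one_pow, mul_one] at h2
    have e : u * v * (1 - u / M - v / M' / 2) = v * u * (1 - v / M' / 2 - u / M) := by ring
    rw [e] at h1
    have e2 : M' * M = M * M' := mul_comm _ _
    rw [e2] at h2
    linarith
  · linarith

theorem EK.F343 {y z z' : ℝ} (h : EK y z z') {u v M M' : ℝ} (hu : 0 ≤ u) (hv : 0 ≤ v)
    (hM : 0 < M) (hM' : 0 < M') :
    Fe y z z' u v M M' ≤ 1 / 7 * (u * v) + 16 / 343 * (M * M') := by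
  have hMM : 0 < M * M' := mul_pos hM hM'
  have c1 : (2 / 27 : ℝ) * (1 - 1 / 7) ^ 3 = 16 / 343 := by norm_num
  have c2 : (16 / 243 : ℝ) * (1 - 1 / 7) ^ 3 ≤ 16 / 343 := by norm_num
  rcases h.clw (θ := 1 / 7) hu hv hM hM' (by norm_num) (by norm_num) with h1 | h1 | h1
  · have h2 := int_bound (θ := 1 / 7) hu hv hM hM' (by norm_num)
    rw [c1] at h2
    linarith
  · have h2 := int_bound (θ := 1 / 7) hv hu hM' hM (by norm_num)
    rw [c1] at h2
    have e : u * v * (1 - u / M - v / M' / 2 - 1 / 7) = v * u * (1 - v / M' / 2 - u / M - 1 / 7) := by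
      ring
    rw [e] at h1
    have e2 : M' * M = M * M' := mul_comm _ _
    rw [e2] at h2
    linarith
  · have h2 := mul_le_mul_of_nonneg_right c2 hMM.le
    linarith

end Pool.Agent.H99.TF
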