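import Mathlib
import Pool.Agent.H99.TF.Kernel

/-!
# The star with at most five leaves and the four-cycle
-/

open Finset

namespace Pool.Agent.H99.TF

/-- the three bounds of the functional of one edge -/
def Tri (F K r s : ℝ) : Prop :=
  F ≤ K * (r * s * (1 - r / 2 - s)) ∨ F ≤ K * (r * s * (1 - r - s / 2)) ∨ F ≤ K * (16 / 243)

theorem Tri.symm {F K r s : ℝ} (h : Tri F K r s) : Tri F K s r := by
  rcases h with h | h | h
  · right; left
    have e : s * r * (1 - s - r / 2) = r * s * (1 - r / 2 - s) := by ring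
    rw [e]; exact h
  · left
    have e : s * r * (1 - s / 2 - r) = r * s * (1 - r - s / 2) := by ring
    rw [e]; exact h
  · right; right
    exact h

theorem Tri.le27 {F K r s : ℝ} (h : Tri F K r s) (hK : 0 ≤ K) (hr : 0 ≤ r) (hs : 0 ≤ s) :
    F ≤ K * (2 / 27) := by
  rcases h with h | h | h
  · have h1 := amgm3 (A := r / 2) (B := s) (Y := 1) (by positivity) hs zero_le_one
    have h2 : r * s * (1 - r / 2 - s) ≤ 2 / 27 := by
      have e : r * s * (1 - r / 2 - s) = 2 * (r / 2 * s * (1 - r / 2 - s)) := by ring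
      rw [e]
      linarith
    exact h.trans (mul_le_mul_of_nonneg_left h2 hK)
  · have h1 := amgm3 (A := s / 2) (B := r) (Y := 1) (by positivity) hr zero_le_one
    have h2 : r * s * (1 - r - s / 2) ≤ 2 / 27 := by
      have e : r * s * (1 - r - s / 2) = 2 * (s / 2 * r * (1 - s / 2 - r)) := by ring
      rw [e]
      linarith
    exact h.trans (mul_le_mul_of_nonneg_left h2 hK)
  · exact h.trans (mul_le_mul_of_nonneg_left (by norm_num) hK)

theorem EK.tri {y z z' : ℝ} (h : EK y z z') {u v M M' : ℝ} (hu : 0 ≤ u) (hv : 0 ≤ v)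
    (hM : 0 < M) (hM' : 0 < M') : Tri (Fe y z z' u v M M') (M * M') (u / M) (v / M') := by
  have hr : 0 ≤ u / M := div_nonneg hu hM.le
  have hs : 0 ≤ v / M' := div_nonneg hv hM'.le
  have hMM : 0 < M * M' := mul_pos hM hM'
  have e : u * v = M * M' * (u / M * (v / M')) := by field_simp
  have e0 : Fe y z z' u v M M'
      = M * M' * (u / M * (v / M') * (y - z * (u / M) / 2 - z' * (v / M') / 2 - 0)) := by
    unfold Fe
    rw [sub_zero, ← mul_assoc, ← e]
  rw [e0]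
  rcases h.cl hr hs le_rfl zero_le_one with h1 | h1 | h1
  · left
    have h2 := mul_le_mul_of_nonneg_left h1 hMM.le
    simp only [sub_zero] at h2 ⊢
    exact h2
  · right; left
    have h2 := mul_le_mul_of_nonneg_left h1 hMM.le
    simp only [sub_zero] at h2 ⊢
    exact h2
  · right; right
    have h2 := mul_le_mul_of_nonneg_left h1 hMM.le
    simp only [sub_zero, one_pow, mul_one] at h2 ⊢
    exact h2

/-- **stars with at most five leaves** -/
theorem star {ι : Type} [DecidableEq ι] {α β : ℝ} (hα : 0 < α) (hβ : 0 < β) (hs : α + β ≤ 1)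
    (B : Finset ι) (f x : ι → ℝ) (hx : ∀ v ∈ B, 0 ≤ x v) (hxs : ∑ v ∈ B, x v = β)
    (hB : B.card ≤ 5) (h : ∀ v ∈ B, Tri (f v) (β * α) (α / β) (x v / α)) :
    ∑ v ∈ B, f v ≤ (B.card : ℝ) / 56 := by
  obtain ⟨q, hq⟩ : ∃ q, q = α ^ 2 / β := ⟨_, rfl⟩
  have hqβ : q * β = α ^ 2 := by rw [hq]; field_simp
  have hq0 : 0 ≤ q := by rw [hq]; positivity
  have h1α : 0 < 1 - α := by linarith
  have hq1 : α ^ 2 ≤ q * (1 - α) := by
    rw [← hqβ]
    exact mul_le_mul_of_nonneg_left (by linarith) hq0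
  have hκ : α - q / 2 ≤ 2698 / 10000 := by
    by_contra hcon
    push Not at hcon
    have := mul_lt_mul_of_pos_right hcon h1α
    nlinarith [sq_nonneg (α - 4232 / 10000)]
  have hκ2 : α - q ≤ 18 / 100 := by
    by_contra hcon
    push Not at hcon
    have := mul_lt_mul_of_pos_right hcon h1α
    nlinarith [sq_nonneg (α - 295 / 1000)]
  have hab : β * α ≤ 1 / 4 := by nlinarith [sq_nonneg (α - β)]
  have e1 : ∀ t, β * α * (α / β * (t / α) * (1 - α / β / 2 - t / α)) = (α - q / 2) * t - t ^ 2 := by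
    intro t
    rw [hq]
    field_simp
  have e2 : ∀ t, β * α * (α / β * (t / α) * (1 - α / β - t / α / 2)) = (α - q) * t - t ^ 2 / 2 := by
    intro t
    rw [hq]
    field_simp
  have key : ∀ v ∈ B, f v ≤ (α - q / 2) * x v - x v ^ 2 ∨ f v ≤ 4 / 243 := by
    intro v hv
    have hxv := hx v hv
    rcases h v hv with h1 | h1 | h1
    · rw [e1] at h1
      exact Or.inl h1
    · rw [e2] at h1
      right
      have h2 : (α - q) * x v ≤ 18 / 100 * x v := mul_le_mul_of_nonneg_right hκ2 hxv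
      nlinarith [sq_nonneg (x v - 18 / 100)]
    · right
      linarith
  by_cases hall : ∀ v ∈ B, f v ≤ (α - q / 2) * x v - x v ^ 2
  · have h1 : ∑ v ∈ B, f v ≤ ∑ v ∈ B, ((α - q / 2) * x v - x v ^ 2) := Finset.sum_le_sum hall
    rw [Finset.sum_sub_distrib, ← Finset.mul_sum, hxs] at h1
    have h2 : β ^ 2 ≤ (B.card : ℝ) * ∑ v ∈ B, x v ^ 2 := by
      rw [← hxs]
      exact sq_sum_le_card_mul_sum_sq
    set X := ∑ v ∈ B, x v ^ 2 with hX
    have h3 : (α - q / 2) * β = α * β - α ^ 2 / 2 := by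
      have : (α - q / 2) * β = α * β - q * β / 2 := by ring
      rw [this, hqβ]
    rw [h3] at h1
    refine h1.trans ?_
    have h4 : (α + β) ^ 2 ≤ 1 := by nlinarith
    generalize B.card = k at hB h2 ⊢
    interval_cases k
    · norm_num at h2 ⊢
      nlinarith
    · norm_num at h2 ⊢
      nlinarith [sq_nonneg (α - β), sq_nonneg α, sq_nonneg β]
    · norm_num at h2 ⊢
      nlinarith [sq_nonneg (α - β), sq_nonneg α, sq_nonneg β]
    · norm_num at h2 ⊢
      nlinarith [sq_nonneg (4 * α - 3 * β), sq_nonneg (α - β), sq_nonneg α, sq_nonneg β,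
        sq_nonneg (5 * α - 4 * β)]
    · norm_num at h2 ⊢
      nlinarith [sq_nonneg (4 * α - 3 * β)]
    · norm_num at h2 ⊢
      nlinarith [sq_nonneg (33 * α - 23 * β), sq_nonneg β]
  · push Not at hall
    obtain ⟨v0, hv0, hlt⟩ := hall
    have hf0 : f v0 ≤ 4 / 243 := by
      rcases key v0 hv0 with h1 | h1
      · exact absurd h1 (not_le.2 hlt)
      · exact h1
    have hg : ∀ v ∈ B.erase v0, f v ≤ (2698 / 10000) ^ 2 / 4 := by
      intro v hv
      have hv' := Finset.mem_of_mem_erase hv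
      rcases key v hv' with h1 | h1
      · have h2 : (α - q / 2) * x v ≤ 2698 / 10000 * x v :=
          mul_le_mul_of_nonneg_right hκ (hx v hv')
        nlinarith [sq_nonneg (x v - 1349 / 10000)]
      · refine h1.trans (by norm_num)
    rw [← Finset.add_sum_erase B f hv0]
    have h1 : ∑ v ∈ B.erase v0, f v ≤ ((B.card - 1 : ℕ) : ℝ) * ((2698 / 10000) ^ 2 / 4) := by
      have := Finset.sum_le_card_nsmul (B.erase v0) f _ hg
      rw [Finset.card_erase_of_mem hv0, nsmul_eq_mul] at this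
      exact this
    have hpos : 0 < B.card := Finset.card_pos.2 ⟨v0, hv0⟩
    have h2 : ((B.card - 1 : ℕ) : ℝ) = (B.card : ℝ) - 1 := by
      rw [Nat.cast_sub hpos]
      simp
    rw [h2] at h1
    have h3 : (B.card : ℝ) ≤ 5 := by exact_mod_cast hB
    have h4 : (1 : ℝ) ≤ B.card := by exact_mod_cast hpos
    nlinarith

theorem chi_le {s : ℝ} (hs : 0 ≤ s) (hs1 : s ≤ 1) :
    s * ((1 - s) ^ 2 / 2 + (1 - s / 2) ^ 2 / 4) ≤ 34 / 243 := by
  nlinarith [mul_nonneg hs (sq_nonneg (s - 418 / 1000)), sq_nonneg (s - 418 / 1000),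
    mul_nonneg (sub_nonneg.2 hs1) (sq_nonneg (s - 418 / 1000))]

/-- the two edges at a vertex of the four-cycle -/
theorem pair {K ρ s r1 r2 F1 F2 : ℝ} (hK : 0 ≤ K) (hr1 : 0 ≤ r1) (hr2 : 0 ≤ r2) (hs : 0 ≤ s)
    (hs1 : s ≤ 1) (hρ : r1 + r2 = ρ) (hρ1 : 1 ≤ ρ) (hρ2 : ρ ≤ 3 / 2) (T1 : Tri F1 K r1 s)
    (T2 : Tri F2 K r2 s) :
    F1 + F2 ≤ K * (s * (ρ - ρ ^ 2 / 4 - ρ * s)) ∨ F1 + F2 ≤ K * (34 / 243) := by
  have h1 := T1.le27 hK hr1 hs
  have h2 := T2.le27 hK hr2 hs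
  have mixed : ∀ a b : ℝ, a * s * (1 - a / 2 - s) + b * s * (1 - b - s / 2) ≤ 34 / 243 := by
    intro a b
    refine le_trans ?_ (chi_le hs hs1)
    have e1 : a * (1 - s) - a ^ 2 / 2 ≤ (1 - s) ^ 2 / 2 := by nlinarith [sq_nonneg (1 - s - a)]
    have e2 : b * (1 - s / 2) - b ^ 2 ≤ (1 - s / 2) ^ 2 / 4 := by
      nlinarith [sq_nonneg (1 - s / 2 - 2 * b)]
    have e3 := mul_le_mul_of_nonneg_left (add_le_add e1 e2) hs
    nlinarith
  rcases T1 with t1 | t1 | t1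
  · rcases T2 with t2 | t2 | t2
    · left
      have : r1 * s * (1 - r1 / 2 - s) + r2 * s * (1 - r2 / 2 - s)
          ≤ s * (ρ - ρ ^ 2 / 4 - ρ * s) := by
        have e1 : ρ ^ 2 / 4 ≤ (r1 ^ 2 + r2 ^ 2) / 2 := by
          rw [← hρ]
          nlinarith [sq_nonneg (r1 - r2)]
        have e2 := mul_le_mul_of_nonneg_left e1 hs
        have e3 : r1 * s * (1 - r1 / 2 - s) + r2 * s * (1 - r2 / 2 - s)
            = s * ((r1 + r2) - (r1 + r2) * s) - s * ((r1 ^ 2 + r2 ^ 2) / 2) := by ring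
        rw [e3, hρ]
        nlinarith
      have := mul_le_mul_of_nonneg_left this hK
      nlinarith
    · right
      have := mul_le_mul_of_nonneg_left (mixed r1 r2) hK
      nlinarith
    · right
      linarith
  · rcases T2 with t2 | t2 | t2
    · right
      have := mul_le_mul_of_nonneg_left (mixed r2 r1) hK
      nlinarith
    · right
      have : r1 * s * (1 - r1 - s / 2) + r2 * s * (1 - r2 - s / 2) ≤ 34 / 243 := by
        have e1 : ρ ^ 2 / 2 ≤ r1 ^ 2 + r2 ^ 2 := by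
          rw [← hρ]
          nlinarith [sq_nonneg (r1 - r2)]
        have e2 := mul_le_mul_of_nonneg_left e1 hs
        have e3 : r1 * s * (1 - r1 - s / 2) + r2 * s * (1 - r2 - s / 2)
            = s * ((r1 + r2) - (r1 + r2) * s / 2) - s * (r1 ^ 2 + r2 ^ 2) := by ring
        rw [e3, hρ]
        have e4 : s * (ρ - ρ * s / 2) - s * (ρ ^ 2 / 2) ≤ ρ * (1 - ρ / 2) ^ 2 / 2 := by
          have : 0 ≤ ρ * (s - (1 - ρ / 2)) ^ 2 := by positivity
          nlinarith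
        have e5 : ρ * (1 - ρ / 2) ^ 2 ≤ 1 / 4 := by
          nlinarith [mul_nonneg (sub_nonneg.2 hρ1) (sub_nonneg.2 hρ2),
            mul_nonneg (mul_nonneg (sub_nonneg.2 hρ1) (sub_nonneg.2 hρ2)) (by linarith : 0 ≤ ρ)]
        linarith
      have := mul_le_mul_of_nonneg_left this hK
      nlinarith
    · right
      linarith
  · right
    linarith

theorem quart {ρ : ℝ} (h1 : 1 ≤ ρ) (h2 : ρ ≤ 3 / 2) :
    ρ * (ρ * (1 - ρ / 4) ^ 2 / 4 + 34 / 243) ≤ (1 + ρ) ^ 2 / 14 := by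
  have h3 : 0 ≤ (ρ - 1) * (3 / 2 - ρ) := mul_nonneg (by linarith) (by linarith)
  nlinarith [mul_nonneg h3 (sq_nonneg (ρ - 117 / 100)), sq_nonneg (ρ - 117 / 100),
    mul_nonneg (by linarith : 0 ≤ ρ - 1) (sq_nonneg (ρ - 117 / 100)),
    mul_nonneg (by linarith : 0 ≤ 3 / 2 - ρ) (sq_nonneg (ρ - 117 / 100)), h3]

/-- **the four-cycle** -/
theorem c4 {α β p1 p2 q1 q2 F11 F12 F21 F22 : ℝ} (hβ : 0 < β) (hβα : β ≤ α) (hsum : α + β ≤ 1)
    (hab : 27 / 112 < α * β) (hp1 : 0 ≤ p1) (hp2 : 0 ≤ p2) (hq1 : 0 ≤ q1) (hq2 : 0 ≤ q2)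
    (hp : p1 + p2 = α) (hq : q1 + q2 = β)
    (T11 : Tri F11 (β * α) (p1 / β) (q1 / α)) (T12 : Tri F12 (β * α) (p1 / β) (q2 / α))
    (T21 : Tri F21 (β * α) (p2 / β) (q1 / α)) (T22 : Tri F22 (β * α) (p2 / β) (q2 / α)) :
    F11 + F12 + F21 + F22 ≤ 4 / 56 := by
  have hα : 0 < α := by linarith
  have hK : 0 ≤ β * α := by positivity
  obtain ⟨ρ, hρ⟩ : ∃ ρ, ρ = α / β := ⟨_, rfl⟩
  have hρβ : ρ * β = α := by rw [hρ]; field_simp
  have hρ1 : 1 ≤ ρ := by rw [hρ, le_div_iff₀ hβ]; linarith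
  have hρ2 : ρ ≤ 3 / 2 := by
    rw [hρ, div_le_iff₀ hβ]
    by_contra hcon
    push Not at hcon
    have h1 : (α + β) ^ 2 ≤ 1 := by nlinarith
    nlinarith [mul_pos (by linarith : 0 < α - 3 / 2 * β) (by linarith : 0 < α - 2 / 3 * β)]
  have hr : p1 / β + p2 / β = ρ := by rw [← add_div, hp, hρ]
  have hs : q1 / α + q2 / α = 1 / ρ := by
    rw [← add_div, hq, hρ]
    field_simp
  have s1 : 0 ≤ q1 / α := by positivity
  have s2 : 0 ≤ q2 / α := by positivity
  have s1' : q1 / α ≤ 1 := by rw [div_le_one hα]; linarith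
  have s2' : q2 / α ≤ 1 := by rw [div_le_one hα]; linarith
  have r1 : 0 ≤ p1 / β := by positivity
  have r2 : 0 ≤ p2 / β := by positivity
  have P1 := pair hK r1 r2 s1 s1' hr hρ1 hρ2 T11 T21
  have P2 := pair hK r1 r2 s2 s2' hr hρ1 hρ2 T12 T22
  set t1 := q1 / α with ht1
  set t2 := q2 / α with ht2
  have hρ0 : 0 < ρ := by linarith
  have hKe : β * α = ρ * β ^ 2 := by rw [← hρβ]; ring
  have h14 : (1 + ρ) ^ 2 * β ^ 2 ≤ 1 := by
    have : (1 + ρ) ^ 2 * β ^ 2 = (α + β) ^ 2 := by rw [← hρβ]; ring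
    rw [this]
    nlinarith
  have hβ2 : 0 ≤ β ^ 2 := sq_nonneg β
  have first : ∀ t : ℝ, t * (ρ - ρ ^ 2 / 4 - ρ * t) ≤ ρ * (1 - ρ / 4) ^ 2 / 4 := by
    intro t
    have : 0 ≤ ρ * (t - (1 - ρ / 4) / 2) ^ 2 := by positivity
    nlinarith
  have mix : ρ * β ^ 2 * (ρ * (1 - ρ / 4) ^ 2 / 4) + ρ * β ^ 2 * (34 / 243) ≤ 4 / 56 := by
    have := mul_le_mul_of_nonneg_right (quart hρ1 hρ2) hβ2
    nlinarith
  have hKρ : 0 ≤ ρ * β ^ 2 := by positivity
  rw [hKe] at P1 P2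
  rcases P1 with P1 | P1
  · rcases P2 with P2 | P2
    · have e1 : ρ * β ^ 2 * (t1 * (ρ - ρ ^ 2 / 4 - ρ * t1)) + ρ * β ^ 2 * (t2 * (ρ - ρ ^ 2 / 4 - ρ * t2))
          = β ^ 2 * (ρ * (t1 + t2) * (ρ - ρ ^ 2 / 4) - ρ ^ 2 * (t1 ^ 2 + t2 ^ 2)) := by ring
      have e2 : ρ * (t1 + t2) = 1 := by rw [hs]; field_simp
      have e3 : 1 / 2 ≤ ρ ^ 2 * (t1 ^ 2 + t2 ^ 2) := by
        have : (ρ * (t1 + t2)) ^ 2 = 1 := by rw [e2]; norm_num
        nlinarith [sq_nonneg (ρ * (t1 - t2))]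
      rw [e2] at e1
      have e4 : 1 * (ρ - ρ ^ 2 / 4) - ρ ^ 2 * (t1 ^ 2 + t2 ^ 2) ≤ (1 + ρ) ^ 2 / 14 := by
        nlinarith [sq_nonneg (3 * ρ - 4)]
      have e5 := mul_le_mul_of_nonneg_left e4 hβ2
      linarith
    · have := mul_le_mul_of_nonneg_left (first t1) hKρ
      linarith
  · rcases P2 with P2 | P2
    · have := mul_le_mul_of_nonneg_left (first t2) hKρ
      linarith
    · have h1 : ρ * β ^ 2 ≤ 1 / 4 := by
        rw [← hKe]
        nlinarith [sq_nonneg (α - β)]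
      linarith

end Pool.Agent.H99.TF
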