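import Mathlib
import Pool.Agent.H99.TF.Small

/-!
# The quadratic inequality on triangle-free graphs
-/

open Finset

namespace Pool.Agent.H99.TF

variable {ι : Type} [Fintype ι] [DecidableEq ι]

/-- `E` is the set of the ordered pairs of adjacent vertices of a triangle-free graph. -/
structure TG (E : Finset (ι × ι)) : Prop where
  symm : ∀ a b, (a, b) ∈ E → (b, a) ∈ E
  tri : ∀ a b c, (a, b) ∈ E → (b, c) ∈ E → (a, c) ∉ E

theorem TG.irr {E : Finset (ι × ι)} (h : TG E) (a : ι) : (a, a) ∉ E :=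
  fun ha => h.tri a a a ha ha ha

/-- neighbours -/
def nb (E : Finset (ι × ι)) (a : ι) : Finset ι := univ.filter fun b => (a, b) ∈ E

theorem mem_nb {E : Finset (ι × ι)} {a b : ι} : b ∈ nb E a ↔ (a, b) ∈ E := by simp [nb]

/-- mass of the neighbourhood -/
noncomputable def nm (E : Finset (ι × ι)) (w : ι → ℝ) (a : ι) : ℝ := ∑ b ∈ nb E a, w b

/-- the functional of an edge -/
noncomputable def FE (E : Finset (ι × ι)) (Y : ι → ι → ℝ) (w : ι → ℝ) (a b : ι) : ℝ :=
  Fe (Y a b) (-Y a a) (-Y b b) (w a) (w b) (nm E w a) (nm E w b)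

theorem sum_E (E : Finset (ι × ι)) (f : ι → ι → ℝ) :
    ∑ p ∈ E, f p.1 p.2 = ∑ a, ∑ b ∈ nb E a, f a b := by
  have : ∑ p ∈ E, f p.1 p.2 = ∑ p : ι × ι, if p ∈ E then f p.1 p.2 else 0 := by
    rw [← Finset.sum_filter]
    congr 1
    ext p
    simp
  rw [this, Fintype.sum_prod_type]
  refine Finset.sum_congr rfl fun a _ => ?_
  unfold nb
  rw [Finset.sum_filter]

theorem TG.sum_swap {E : Finset (ι × ι)} (h : TG E) (f : ι → ι → ℝ) :
    ∑ p ∈ E, f p.2 p.1 = ∑ p ∈ E, f p.1 p.2 := by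
  refine Finset.sum_nbij' Prod.swap Prod.swap ?_ ?_ ?_ ?_ ?_
  · rintro ⟨a, b⟩ hp
    exact h.symm a b hp
  · rintro ⟨a, b⟩ hp
    exact h.symm a b hp
  · rintro ⟨a, b⟩ _
    rfl
  · rintro ⟨a, b⟩ _
    rfl
  · rintro ⟨a, b⟩ _
    rfl

theorem TG.dist {E : Finset (ι × ι)} (h : TG E) {Y : ι → ι → ℝ} {w : ι → ℝ}
    (hd : ∀ a, Y a a ≤ 0) :
    ∑ p ∈ E, Y p.1 p.2 * (w p.1 * w p.2) + ∑ a, Y a a * w a ^ 2
      ≤ ∑ p ∈ E, FE E Y w p.1 p.2 := by
  obtain ⟨g, hg⟩ : ∃ g : ι → ι → ℝ, g = fun a b => Y a a * (w a / nm E w a) * (w a * w b) :=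
    ⟨_, rfl⟩
  have e1 : ∀ a b, FE E Y w a b = Y a b * (w a * w b) + (g a b / 2 + g b a / 2) := by
    intro a b
    rw [hg]
    simp only [FE, Fe]
    ring
  have e2 : ∑ p ∈ E, FE E Y w p.1 p.2
      = ∑ p ∈ E, Y p.1 p.2 * (w p.1 * w p.2) + ∑ p ∈ E, g p.1 p.2 := by
    simp only [e1]
    rw [Finset.sum_add_distrib, Finset.sum_add_distrib, ← Finset.sum_div, ← Finset.sum_div,
      h.sum_swap g]
    ring
  have e3 : ∑ p ∈ E, g p.1 p.2 = ∑ a, Y a a * (w a / nm E w a) * (w a * nm E w a) := by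
    rw [sum_E]
    refine Finset.sum_congr rfl fun a _ => ?_
    rw [hg]
    simp only [nm, Finset.mul_sum]
  rw [e2, e3]
  have e4 : ∑ a, Y a a * w a ^ 2 ≤ ∑ a, Y a a * (w a / nm E w a) * (w a * nm E w a) := by
    refine Finset.sum_le_sum fun a _ => ?_
    rcases eq_or_ne (nm E w a) 0 with h0 | h0
    · rw [h0]
      simp only [div_zero, mul_zero]
      exact mul_nonpos_of_nonpos_of_nonneg (hd a) (sq_nonneg _)
    · have : Y a a * (w a / nm E w a) * (w a * nm E w a) = Y a a * w a ^ 2 := by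
        field_simp
      rw [this]
  linarith

section weights

variable {E : Finset (ι × ι)} {w : ι → ℝ}

theorem TG.nm_add_le (h : TG E) (hw : ∀ a, 0 ≤ w a) (hs : ∑ a, w a = 1) {a b : ι}
    (hab : (a, b) ∈ E) : nm E w a + nm E w b ≤ 1 := by
  have hdis : Disjoint (nb E a) (nb E b) := by
    rw [Finset.disjoint_left]
    intro x hx hx'
    rw [mem_nb] at hx hx'
    exact h.tri a x b hx (h.symm _ _ hx') hab
  unfold nm
  rw [← Finset.sum_union hdis, ← hs]
  exact Finset.sum_le_sum_of_subset_of_nonneg (Finset.subset_univ _) fun x _ _ => hw x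

theorem le_nm (hw : ∀ a, 0 ≤ w a) {a b : ι} (hab : (a, b) ∈ E) : w b ≤ nm E w a :=
  Finset.single_le_sum (f := w) (fun x _ => hw x) (mem_nb.2 hab)

theorem nm_nonneg (hw : ∀ a, 0 ≤ w a) (a : ι) : 0 ≤ nm E w a :=
  Finset.sum_nonneg fun x _ => hw x

theorem TG.Q_le (h : TG E) (hw : ∀ a, 0 ≤ w a) (hs : ∑ a, w a = 1) :
    ∑ p ∈ E, w p.1 * w p.2 ≤ 1 / 2 := by
  obtain ⟨Q, hQ⟩ : ∃ Q, Q = ∑ p ∈ E, w p.1 * w p.2 := ⟨_, rfl⟩
  have hQ' : Q = ∑ a, w a * nm E w a := by
    rw [hQ, sum_E E (fun a b => w a * w b)]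
    refine Finset.sum_congr rfl fun a _ => ?_
    rw [nm, Finset.mul_sum]
  have h1 : ∑ p ∈ E, (w p.1 * w p.2 * nm E w p.1) = ∑ a, w a * nm E w a ^ 2 := by
    rw [sum_E E (fun a b => w a * w b * nm E w a)]
    refine Finset.sum_congr rfl fun a _ => ?_
    rw [← Finset.sum_mul, ← Finset.mul_sum]
    simp only [nm]
    ring
  have h2 : ∑ p ∈ E, (w p.1 * w p.2 * nm E w p.2) = ∑ a, w a * nm E w a ^ 2 := by
    rw [← h1, ← h.sum_swap (fun a b => w a * w b * nm E w a)]
    refine Finset.sum_congr rfl fun p _ => ?_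
    ring
  have h3 : ∑ p ∈ E, (w p.1 * w p.2 * nm E w p.1) + ∑ p ∈ E, (w p.1 * w p.2 * nm E w p.2) ≤ Q := by
    rw [← Finset.sum_add_distrib, hQ]
    refine Finset.sum_le_sum fun p hp => ?_
    have h4 := h.nm_add_le hw hs (a := p.1) (b := p.2) hp
    have h5 : 0 ≤ w p.1 * w p.2 := mul_nonneg (hw _) (hw _)
    nlinarith
  rw [h1, h2] at h3
  have h4 : 0 ≤ ∑ a, w a * (nm E w a - Q) ^ 2 :=
    Finset.sum_nonneg fun a _ => mul_nonneg (hw a) (sq_nonneg _)
  have h5 : ∑ a, w a * (nm E w a - Q) ^ 2 = ∑ a, w a * nm E w a ^ 2 - 2 * Q * Q + Q ^ 2 := by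
    have e : ∀ a, w a * (nm E w a - Q) ^ 2
        = w a * nm E w a ^ 2 - 2 * Q * (w a * nm E w a) + Q ^ 2 * w a := fun a => by ring
    rw [Finset.sum_congr rfl fun a _ => e a, Finset.sum_add_distrib, Finset.sum_sub_distrib,
      ← Finset.mul_sum, ← Finset.mul_sum, hs, ← hQ', mul_one]
  rw [h5] at h4
  rw [← hQ]
  by_contra hcon
  push Not at hcon
  nlinarith

variable {Y : ι → ι → ℝ}

theorem TG.pos (h : TG E) (hw : ∀ a, 0 ≤ w a) (hbig : ∀ a b, (a, b) ∈ E → 1 / 56 < w a * w b)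
    {a b : ι} (hab : (a, b) ∈ E) : 0 < w a ∧ 0 < nm E w a := by
  have h1 := hbig a b hab
  have ha : 0 < w a := by
    rcases (hw a).eq_or_lt with h0 | h0
    · rw [← h0] at h1
      norm_num at h1
    · exact h0
  have hb : 0 < w b := by
    rcases (hw b).eq_or_lt with h0 | h0
    · rw [← h0] at h1
      norm_num at h1
    · exact h0
  exact ⟨ha, lt_of_lt_of_le hb (le_nm hw hab)⟩

/-- at least twelve ordered pairs -/
theorem TG.big12 (h : TG E) (hw : ∀ a, 0 ≤ w a) (hs : ∑ a, w a = 1)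
    (hK : ∀ a b, (a, b) ∈ E → EK (Y a b) (-Y a a) (-Y b b))
    (hbig : ∀ a b, (a, b) ∈ E → 1 / 56 < w a * w b) (hc : 12 ≤ E.card) :
    ∑ p ∈ E, FE E Y w p.1 p.2 ≤ (E.card : ℝ) / 56 := by
  have h1 : ∀ p ∈ E, FE E Y w p.1 p.2 ≤ 1 / 7 * (w p.1 * w p.2) + 4 / 343 := by
    rintro ⟨a, b⟩ hp
    have hab := h.nm_add_le hw hs hp
    obtain ⟨ha, hMa⟩ := h.pos hw hbig hp
    obtain ⟨hb, hMb⟩ := h.pos hw hbig (h.symm _ _ hp)
    have h2 := (hK a b hp).F343 (hw a) (hw b) hMa hMb
    have h3 : nm E w a * nm E w b ≤ 1 / 4 := by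
      nlinarith [sq_nonneg (nm E w a - nm E w b)]
    simp only [FE]
    linarith
  refine (Finset.sum_le_sum h1).trans ?_
  rw [Finset.sum_add_distrib, ← Finset.mul_sum, Finset.sum_const, nsmul_eq_mul]
  have h2 := h.Q_le hw hs
  have h3 : (12 : ℝ) ≤ E.card := by exact_mod_cast hc
  linarith

theorem FE_symm (hY : ∀ a b, Y a b = Y b a) (a b : ι) : FE E Y w a b = FE E Y w b a := by
  unfold FE
  rw [Fe_symm, hY a b]

/-- the sum over the pairs with the first vertex in `A`, when every edge joins `A` and its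
complement -/
theorem TG.half (h : TG E) (A : Finset ι) (hA : ∀ a b, (a, b) ∈ E → (a ∉ A ↔ b ∈ A))
    (f : ι → ι → ℝ) (hf : ∀ a b, f a b = f b a) :
    ∑ p ∈ E, f p.1 p.2 = 2 * ∑ p ∈ E.filter (fun p => p.1 ∈ A), f p.1 p.2 := by
  rw [← Finset.sum_filter_add_sum_filter_not E (fun p => p.1 ∈ A)]
  have h1 : ∑ p ∈ E.filter (fun p => ¬ p.1 ∈ A), f p.1 p.2
      = ∑ p ∈ E.filter (fun p => p.1 ∈ A), f p.1 p.2 := by
    refine Finset.sum_nbij' Prod.swap Prod.swap ?_ ?_ ?_ ?_ ?_
    · rintro ⟨a, b⟩ hp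
      rw [Finset.mem_filter] at hp ⊢
      exact ⟨h.symm _ _ hp.1, (hA _ _ hp.1).1 hp.2⟩
    · rintro ⟨a, b⟩ hp
      rw [Finset.mem_filter] at hp ⊢
      exact ⟨h.symm _ _ hp.1, (hA _ _ (h.symm _ _ hp.1)).2 hp.2⟩
    · rintro ⟨a, b⟩ _
      rfl
    · rintro ⟨a, b⟩ _
      rfl
    · rintro ⟨a, b⟩ _
      exact hf _ _
  rw [h1]
  ring

/-- complete bipartite graphs with at most five edges -/
theorem complete (A B : Finset ι) (f : ι → ι → ℝ) {α β : ℝ} (hw : ∀ a, 0 ≤ w a)
    (hα : ∑ u ∈ A, w u = α) (hβ : ∑ v ∈ B, w v = β) (hα0 : 0 < α) (hβ0 : 0 < β)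
    (hsum : α + β ≤ 1) (hab : 27 / 112 < α * β) (hc : A.card * B.card ≤ 5)
    (hT : ∀ u ∈ A, ∀ v ∈ B, Tri (f u v) (β * α) (w u / β) (w v / α)) :
    ∑ u ∈ A, ∑ v ∈ B, f u v ≤ ((A.card * B.card : ℕ) : ℝ) / 56 := by
  have hA0 : A.card ≠ 0 := by
    intro h0
    rw [Finset.card_eq_zero] at h0
    rw [h0, Finset.sum_empty] at hα
    linarith
  have hB0 : B.card ≠ 0 := by
    intro h0
    rw [Finset.card_eq_zero] at h0
    rw [h0, Finset.sum_empty] at hβ
    linarith
  by_cases hA1 : A.card = 1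
  · obtain ⟨a, rfl⟩ := Finset.card_eq_one.1 hA1
    rw [Finset.sum_singleton] at hα ⊢
    rw [hA1, one_mul] at hc ⊢
    refine star hα0 hβ0 hsum B (f a) w (fun v _ => hw v) hβ hc fun v hv => ?_
    have := hT a (Finset.mem_singleton_self a) v hv
    rwa [hα] at this
  by_cases hB1 : B.card = 1
  · obtain ⟨b, rfl⟩ := Finset.card_eq_one.1 hB1
    rw [Finset.sum_singleton] at hβ
    simp only [Finset.sum_singleton]
    rw [hB1, mul_one] at hc ⊢
    refine star hβ0 hα0 (by linarith) A (fun u => f u b) w (fun v _ => hw v) hα hc fun u hu => ?_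
    have := (hT u hu b (Finset.mem_singleton_self b)).symm
    rw [hβ, mul_comm β α] at this
    exact this
  have hA2 : A.card = 2 := by
    have h2 : 2 ≤ A.card := by omega
    have h3 : 2 ≤ B.card := by omega
    have h4 : A.card ≤ 2 := by
      by_contra hcon
      push Not at hcon
      have : 3 * 2 ≤ A.card * B.card := Nat.mul_le_mul hcon h3
      omega
    omega
  have hB2 : B.card = 2 := by
    have h3 : 2 ≤ B.card := by omega
    rw [hA2] at hc
    omega
  obtain ⟨a1, a2, hne, rfl⟩ := Finset.card_eq_two.1 hA2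
  obtain ⟨b1, b2, hne', rfl⟩ := Finset.card_eq_two.1 hB2
  rw [Finset.sum_pair hne] at hα ⊢
  rw [Finset.sum_pair hne'] at hβ
  rw [Finset.sum_pair hne', Finset.sum_pair hne', hA2, hB2]
  have T11 := hT a1 (by simp) b1 (by simp)
  have T12 := hT a1 (by simp) b2 (by simp)
  have T21 := hT a2 (by simp) b1 (by simp)
  have T22 := hT a2 (by simp) b2 (by simp)
  rcases le_total β α with hle | hle
  · have := c4 hβ0 hle hsum hab (hw a1) (hw a2) (hw b1) (hw b2) hα hβ T11 T12 T21 T22
    push_cast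
    linarith
  · have T11' := T11.symm
    have T12' := T12.symm
    have T21' := T21.symm
    have T22' := T22.symm
    rw [mul_comm β α] at T11' T12' T21' T22'
    have := c4 hα0 hle (by linarith) (by linarith [mul_comm α β]) (hw b1) (hw b2) (hw a1) (hw a2)
      hβ hα T11' T21' T12' T22'
    push_cast
    linarith

/-- fewer than twelve ordered pairs -/
theorem TG.small (h : TG E) (hY : ∀ a b, Y a b = Y b a) (hw : ∀ a, 0 ≤ w a) (hs : ∑ a, w a = 1)
    (hK : ∀ a b, (a, b) ∈ E → EK (Y a b) (-Y a a) (-Y b b))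
    (hbig : ∀ a b, (a, b) ∈ E → 1 / 56 < w a * w b) (hc : E.card < 12) :
    ∑ p ∈ E, FE E Y w p.1 p.2 ≤ (E.card : ℝ) / 56 := by
  by_cases hall : ∀ p ∈ E, FE E Y w p.1 p.2 ≤ 1 / 56
  · have := Finset.sum_le_card_nsmul E _ _ hall
    rw [nsmul_eq_mul] at this
    linarith
  push Not at hall
  obtain ⟨⟨a, b⟩, hab, hF⟩ := hall
  simp only at hF
  have F27 : ∀ u v, (u, v) ∈ E → FE E Y w u v ≤ 2 / 27 * (nm E w u * nm E w v) := by
    intro u v huv
    exact (hK u v huv).F27 (hw u) (hw v) (h.pos hw hbig huv).2 (h.pos hw hbig (h.symm _ _ huv)).2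
  have hMM := F27 a b hab
  obtain ⟨A, hA⟩ : ∃ A, A = nb E b := ⟨_, rfl⟩
  obtain ⟨B, hB⟩ : ∃ B, B = nb E a := ⟨_, rfl⟩
  have haA : a ∈ A := by rw [hA, mem_nb]; exact h.symm _ _ hab
  have hbB : b ∈ B := by rw [hB, mem_nb]; exact hab
  obtain ⟨α, hα⟩ : ∃ α, α = nm E w b := ⟨_, rfl⟩
  obtain ⟨β, hβ⟩ : ∃ β, β = nm E w a := ⟨_, rfl⟩
  have hαs : ∑ u ∈ A, w u = α := by rw [hA, hα]; rfl
  have hβs : ∑ u ∈ B, w u = β := by rw [hB, hβ]; rfl
  have hαβ : 27 / 112 < α * β := by rw [hα, hβ]; linarith [mul_comm (nm E w a) (nm E w b)]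
  have hsum : α + β ≤ 1 := by rw [hα, hβ]; linarith [h.nm_add_le hw hs hab]
  have hα0 : 0 < α := by rw [hα]; exact (h.pos hw hbig (h.symm _ _ hab)).2
  have hβ0 : 0 < β := by rw [hβ]; exact (h.pos hw hbig hab).2
  have hdis : Disjoint A B := by
    rw [Finset.disjoint_left]
    intro x hx hx'
    rw [hA, mem_nb] at hx
    rw [hB, mem_nb] at hx'
    exact h.tri a x b hx' (h.symm _ _ hx) hab
  -- every edge meets `A ∪ B`
  have hiso : ∀ x x', (x, x') ∈ E → x ∈ A ∨ x ∈ B := by
    intro x x' hxx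
    by_contra hcon
    push Not at hcon
    have h1 : w x + (α + β) ≤ 1 := by
      have hx1 : x ∉ A ∪ B := by
        rw [Finset.mem_union]
        tauto
      rw [← hαs, ← hβs, ← Finset.sum_union hdis, ← Finset.sum_insert hx1, ← hs]
      exact Finset.sum_le_sum_of_subset_of_nonneg (Finset.subset_univ _) fun y _ _ => hw y
    have h2 : w x + w x' ≤ 1 := by
      have hne : x ≠ x' := fun he => h.irr x (by rw [← he] at hxx; exact hxx)
      rw [← Finset.sum_pair hne, ← hs]
      exact Finset.sum_le_sum_of_subset_of_nonneg (Finset.subset_univ _) fun y _ _ => hw y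
    have h3 := hbig x x' hxx
    have h4 : 27 / 28 < (α + β) ^ 2 := by nlinarith [sq_nonneg (α - β)]
    have h5 := hw x
    have h6 := hw x'
    have h7 : (α + β) ^ 2 ≤ (1 - w x) ^ 2 := by
      apply pow_le_pow_left₀ (by linarith)
      linarith
    have h8 : w x * w x' ≤ w x * (1 - w x) := mul_le_mul_of_nonneg_left (by linarith) h5
    nlinarith
  have hnoA : ∀ u v, (u, v) ∈ E → u ∈ A → v ∉ A := by
    intro u v huv hu hv
    rw [hA, mem_nb] at hu hv
    exact h.tri b u v hu huv hv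
  have hnoB : ∀ u v, (u, v) ∈ E → u ∈ B → v ∉ B := by
    intro u v huv hu hv
    rw [hB, mem_nb] at hu hv
    exact h.tri a u v hu huv hv
  have hAB : ∀ u v, (u, v) ∈ E → u ∈ A → v ∈ B := by
    intro u v huv hu
    rcases hiso v u (h.symm _ _ huv) with h1 | h1
    · exact absurd h1 (hnoA u v huv hu)
    · exact h1
  have hBA : ∀ u v, (u, v) ∈ E → u ∈ B → v ∈ A := by
    intro u v huv hu
    rcases hiso v u (h.symm _ _ huv) with h1 | h1
    · exact h1
    · exact absurd h1 (hnoB u v huv hu)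
  have hsplit : ∀ u v, (u, v) ∈ E → (u ∉ A ↔ v ∈ A) := by
    intro u v huv
    constructor
    · intro hu
      rcases hiso u v huv with h1 | h1
      · exact absurd h1 hu
      · exact hBA u v huv h1
    · intro hv hu
      exact hnoA u v huv hu hv
  obtain ⟨EA, hEA⟩ : ∃ EA, EA = E.filter (fun p => p.1 ∈ A) := ⟨_, rfl⟩
  have hsum2 : ∑ p ∈ E, FE E Y w p.1 p.2 = 2 * ∑ p ∈ EA, FE E Y w p.1 p.2 := by
    rw [hEA]
    exact h.half A hsplit _ (FE_symm hY)
  have hcard : (E.card : ℝ) = 2 * EA.card := by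
    have := h.half A hsplit (fun _ _ => (1 : ℝ)) (fun _ _ => rfl)
    simp only [Finset.sum_const, nsmul_eq_mul, mul_one] at this
    rw [hEA]
    exact this
  have hcard' : EA.card ≤ 5 := by
    have h1 : E.card = 2 * EA.card := by exact_mod_cast hcard
    omega
  have hmemEA : ∀ u v, (u, v) ∈ EA ↔ (u, v) ∈ E ∧ u ∈ A := by
    intro u v
    rw [hEA, Finset.mem_filter]
  have hgoal : ∑ p ∈ EA, FE E Y w p.1 p.2 ≤ (EA.card : ℝ) / 56 → ∑ p ∈ E, FE E Y w p.1 p.2
      ≤ (E.card : ℝ) / 56 := by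
    intro h1
    rw [hsum2, hcard]
    linarith
  apply hgoal
  by_cases hcomp : ∀ u ∈ A, ∀ v ∈ B, (u, v) ∈ E
  · -- complete bipartite
    have hEAp : EA = A ×ˢ B := by
      ext ⟨u, v⟩
      rw [hmemEA, Finset.mem_product]
      constructor
      · rintro ⟨h1, h2⟩
        exact ⟨h2, hAB u v h1 h2⟩
      · rintro ⟨h1, h2⟩
        exact ⟨hcomp u h1 v h2, h1⟩
    have hnbA : ∀ u ∈ A, nm E w u = β := by
      intro u hu
      have : nb E u = B := by
        ext v
        rw [mem_nb]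
        exact ⟨fun h1 => hAB u v h1 hu, fun h1 => hcomp u hu v h1⟩
      rw [nm, this, hβs]
    have hnbB : ∀ v ∈ B, nm E w v = α := by
      intro v hv
      have : nb E v = A := by
        ext u
        rw [mem_nb]
        exact ⟨fun h1 => hBA v u h1 hv, fun h1 => h.symm _ _ (hcomp u h1 v hv)⟩
      rw [nm, this, hαs]
    rw [hEAp, Finset.sum_product, Finset.card_product]
    refine complete A B (fun u v => FE E Y w u v) hw hαs hβs hα0 hβ0 hsum hαβ ?_ ?_
    · rw [hEAp, Finset.card_product] at hcard'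
      exact hcard'
    · intro u hu v hv
      have h1 := (hK u v (hcomp u hu v hv)).tri (hw u) (hw v) hβ0 hα0
      simp only [FE]
      rw [hnbA u hu, hnbB v hv]
      exact h1
  · -- not complete
    push Not at hcomp
    obtain ⟨u0, hu0, y0, hy0, hn⟩ := hcomp
    obtain ⟨As, hAs⟩ : ∃ As, As = A.filter (fun u => ∀ v ∈ B, (u, v) ∈ E) := ⟨_, rfl⟩
    obtain ⟨Bs, hBs⟩ : ∃ Bs, Bs = B.filter (fun v => ∀ u ∈ A, (u, v) ∈ E) := ⟨_, rfl⟩
    have hu0' : u0 ∉ As := by
      rw [hAs, Finset.mem_filter]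
      intro h1
      exact hn (h1.2 y0 hy0)
    have hy0' : y0 ∉ Bs := by
      rw [hBs, Finset.mem_filter]
      intro h1
      exact hn (h1.2 u0 hu0)
    have hnmA : ∀ u ∈ A, ∀ y ∈ B, (u, y) ∉ E → nm E w u ≤ β - w y := by
      intro u hu y hy hny
      have h1 : nb E u ⊆ B.erase y := by
        intro v hv
        rw [mem_nb] at hv
        rw [Finset.mem_erase]
        refine ⟨fun he => hny (by rw [he] at hv; exact hv), hAB u v hv hu⟩
      have h2 : nm E w u ≤ ∑ v ∈ B.erase y, w v :=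
        Finset.sum_le_sum_of_subset_of_nonneg h1 fun v _ _ => hw v
      have h3 := Finset.add_sum_erase B w hy
      linarith
    have hnmB : ∀ v ∈ B, ∀ x ∈ A, (x, v) ∉ E → nm E w v ≤ α - w x := by
      intro v hv x hx hnx
      have h1 : nb E v ⊆ A.erase x := by
        intro u hu
        rw [mem_nb] at hu
        rw [Finset.mem_erase]
        refine ⟨fun he => hnx (by rw [he] at hu; exact h.symm _ _ hu), hBA v u hu hv⟩
      have h2 : nm E w v ≤ ∑ v ∈ A.erase x, w v :=
        Finset.sum_le_sum_of_subset_of_nonneg h1 fun v _ _ => hw v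
      have h3 := Finset.add_sum_erase A w hx
      linarith
    have hnmA' : ∀ u ∈ A, nm E w u ≤ β := by
      intro u hu
      rw [← hβs]
      refine Finset.sum_le_sum_of_subset_of_nonneg ?_ fun v _ _ => hw v
      intro v hv
      rw [mem_nb] at hv
      exact hAB u v hv hu
    have hnmB' : ∀ v ∈ B, nm E w v ≤ α := by
      intro v hv
      rw [← hαs]
      refine Finset.sum_le_sum_of_subset_of_nonneg ?_ fun v _ _ => hw v
      intro u hu
      rw [mem_nb] at hu
      exact hBA v u hu hv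
    have hq : α * β ≤ 1 / 4 := by nlinarith [sq_nonneg (α - β)]
    have hbad : ∀ u v, (u, v) ∈ EA → ¬ (u ∈ As ∧ v ∈ Bs) → FE E Y w u v ≤ 13 / 756 := by
      intro u v huv hnot
      obtain ⟨huvE, hu⟩ := (hmemEA u v).1 huv
      have hv := hAB u v huvE hu
      have h1 := F27 u v huvE
      have hnu := nm_nonneg (E := E) hw u
      have hnv := nm_nonneg (E := E) hw v
      have h2 : nm E w u * nm E w v ≤ 13 / 56 := by
        by_cases huA : u ∈ As
        · have hvB : v ∉ Bs := fun h' => hnot ⟨huA, h'⟩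
          rw [hBs, Finset.mem_filter] at hvB
          push Not at hvB
          obtain ⟨x, hx, hxv⟩ := hvB hv
          have h3 := hnmB v hv x hx hxv
          have h4 := hnmA' u hu
          have hxb : (x, b) ∈ E := by
            rw [hA, mem_nb] at hx
            exact h.symm _ _ hx
          have h5 := hbig x b hxb
          have h6 : w b ≤ β := by rw [hβ]; exact le_nm hw hab
          have h7 : w x * w b ≤ w x * β := mul_le_mul_of_nonneg_left h6 (hw x)
          have h8 : nm E w u * nm E w v ≤ β * (α - w x) :=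
            mul_le_mul h4 h3 hnv hβ0.le
          linarith
        · rw [hAs, Finset.mem_filter] at huA
          push Not at huA
          obtain ⟨y, hy, huy⟩ := huA hu
          have h3 := hnmA u hu y hy huy
          have h4 := hnmB' v hv
          have hay : (a, y) ∈ E := by
            rw [hB, mem_nb] at hy
            exact hy
          have h5 := hbig a y hay
          have h6 : w a ≤ α := by rw [hα]; exact le_nm hw (h.symm _ _ hab)
          have h7 : w a * w y ≤ α * w y := mul_le_mul_of_nonneg_right h6 (hw y)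
          have h8 : nm E w u * nm E w v ≤ (β - w y) * α :=
            mul_le_mul h3 h4 hnv (by linarith)
          linarith
      linarith
    have hgood : ∀ u v, (u, v) ∈ E → FE E Y w u v ≤ 1 / 54 := by
      intro u v huv
      have h1 := F27 u v huv
      have h2 := h.nm_add_le hw hs huv
      have hnu := nm_nonneg (E := E) hw u
      have hnv := nm_nonneg (E := E) hw v
      have h3 : nm E w u * nm E w v ≤ 1 / 4 := by
        nlinarith [sq_nonneg (nm E w u - nm E w v)]
      linarith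
    obtain ⟨FF, hFF⟩ : ∃ FF, FF = EA.filter (fun p => p.1 ∈ As ∧ p.2 ∈ Bs) := ⟨_, rfl⟩
    have h1 : ∀ p ∈ EA, FE E Y w p.1 p.2
        ≤ 13 / 756 + (if p.1 ∈ As ∧ p.2 ∈ Bs then (1 / 756 : ℝ) else 0) := by
      rintro ⟨u, v⟩ hp
      by_cases hcase : u ∈ As ∧ v ∈ Bs
      · have := hgood u v ((hmemEA u v).1 hp).1
        simp only [if_pos hcase]
        linarith
      · have := hbad u v hp hcase
        simp only [if_neg hcase]
        linarith
    have h2 := Finset.sum_le_sum h1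
    rw [Finset.sum_add_distrib, Finset.sum_const, nsmul_eq_mul, ← Finset.sum_filter, ← hFF,
      Finset.sum_const, nsmul_eq_mul] at h2
    have h3 : FF.card ≤ As.card * Bs.card := by
      rw [← Finset.card_product]
      apply Finset.card_le_card
      intro p hp
      rw [hFF, Finset.mem_filter] at hp
      rw [Finset.mem_product]
      exact hp.2
    have h4 : (As.card + 1) * (Bs.card + 1) - 1 ≤ EA.card := by
      have h5 : (((insert u0 As) ×ˢ (insert y0 Bs)).erase (u0, y0)).card ≤ EA.card := by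
        apply Finset.card_le_card
        rintro ⟨u, v⟩ hp
        rw [Finset.mem_erase, Finset.mem_product, Finset.mem_insert, Finset.mem_insert] at hp
        obtain ⟨hne, hu, hv⟩ := hp
        simp only at hu hv
        rw [hmemEA]
        rcases hu with rfl | hu
        · rcases hv with rfl | hv
          · exact absurd rfl hne
          · rw [hBs, Finset.mem_filter] at hv
            exact ⟨hv.2 _ hu0, hu0⟩
        · rw [hAs, Finset.mem_filter] at hu
          rcases hv with rfl | hv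
          · exact ⟨hu.2 _ hy0, hu.1⟩
          · rw [hBs, Finset.mem_filter] at hv
            exact ⟨hu.2 _ hv.1, hu.1⟩
      rw [Finset.card_erase_of_mem (by simp), Finset.card_product,
        Finset.card_insert_of_notMem hu0', Finset.card_insert_of_notMem hy0'] at h5
      exact h5
    have h5 : 2 * FF.card ≤ EA.card := by
      have h6 : (As.card + 1) * (Bs.card + 1) ≤ 6 := by omega
      have hA5 : As.card ≤ 5 := by
        by_contra hcon
        push Not at hcon
        have : 7 * 1 ≤ (As.card + 1) * (Bs.card + 1) := Nat.mul_le_mul (by omega) (by omega)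
        omega
      have hB5 : Bs.card ≤ 5 := by
        by_contra hcon
        push Not at hcon
        have : 1 * 7 ≤ (As.card + 1) * (Bs.card + 1) := Nat.mul_le_mul (by omega) (by omega)
        omega
      have h7 : As.card * Bs.card ≤ As.card + Bs.card := by
        generalize As.card = x at *
        generalize Bs.card = y at *
        interval_cases x <;> interval_cases y <;> omega
      have h8 : (As.card + 1) * (Bs.card + 1) = As.card * Bs.card + As.card + Bs.card + 1 := by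
        ring
      omega
    have h6 : (2 : ℝ) * FF.card ≤ EA.card := by exact_mod_cast h5
    linarith

end weights

/-- **The quadratic inequality**, normalised. -/
theorem core {Y : ι → ι → ℝ} {w : ι → ℝ} (hY : ∀ a b, Y a b = Y b a) (hd : ∀ a, Y a a ≤ 0)
    (hw : ∀ a, 0 ≤ w a) (hs : ∑ a, w a = 1) :
    ∀ (c : ℕ) (E : Finset (ι × ι)), E.card = c → TG E →
      (∀ a b, (a, b) ∈ E → EK (Y a b) (-Y a a) (-Y b b)) →
      ∑ p ∈ E, Y p.1 p.2 * (w p.1 * w p.2) + ∑ a, Y a a * w a ^ 2 ≤ (c : ℝ) / 56 := by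
  intro c
  induction c using Nat.strong_induction_on with
  | _ c ih =>
    intro E hEc hE hK
    by_cases hbig : ∀ a b, (a, b) ∈ E → 1 / 56 < w a * w b
    · refine (hE.dist hd).trans ?_
      rw [← hEc]
      rcases lt_or_ge E.card 12 with h12 | h12
      · exact hE.small hY hw hs hK hbig h12
      · exact hE.big12 hw hs hK hbig h12
    · push Not at hbig
      obtain ⟨a, b, hab, hle⟩ := hbig
      have hne : (b, a) ≠ (a, b) := by
        intro he
        have h1 : a = b := (Prod.mk.inj he).2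
        rw [h1] at hab
        exact hE.irr b hab
      have hba : (b, a) ∈ E.erase (a, b) := Finset.mem_erase.2 ⟨hne, hE.symm _ _ hab⟩
      obtain ⟨E', hE'⟩ : ∃ E', E' = (E.erase (a, b)).erase (b, a) := ⟨_, rfl⟩
      have hmem : ∀ p, p ∈ E' ↔ p ≠ (b, a) ∧ p ≠ (a, b) ∧ p ∈ E := by
        intro p
        rw [hE', Finset.mem_erase, Finset.mem_erase]
      have hc1 : E'.card + 2 = c := by
        have h1 := Finset.card_erase_add_one hab
        have h2 := Finset.card_erase_add_one hba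
        rw [hE']
        omega
      have hTG : TG E' := by
        refine ⟨?_, ?_⟩
        · intro x y hxy
          rw [hmem] at hxy ⊢
          refine ⟨?_, ?_, hE.symm _ _ hxy.2.2⟩
          · intro he
            apply hxy.2.1
            rw [Prod.mk.injEq] at he ⊢
            exact ⟨he.2, he.1⟩
          · intro he
            apply hxy.1
            rw [Prod.mk.injEq] at he ⊢
            exact ⟨he.2, he.1⟩
        · intro x y z hxy hyz hxz
          rw [hmem] at hxy hyz hxz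
          exact hE.tri x y z hxy.2.2 hyz.2.2 hxz.2.2
      have h1 := ih E'.card (by omega) E' rfl hTG
        (fun x y hxy => hK x y ((hmem _).1 hxy).2.2)
      have h2 : ∑ p ∈ E, Y p.1 p.2 * (w p.1 * w p.2)
          = Y a b * (w a * w b) + (Y b a * (w b * w a) + ∑ p ∈ E', Y p.1 p.2 * (w p.1 * w p.2)) := by
        rw [← Finset.add_sum_erase E _ hab, ← Finset.add_sum_erase _ _ hba, hE']
      have h3 : Y a b * (w a * w b) ≤ 1 / 56 := by
        have h4 := (hK a b hab).y1
        have h5 : 0 ≤ w a * w b := mul_nonneg (hw a) (hw b)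
        nlinarith
      have h4 : Y b a * (w b * w a) = Y a b * (w a * w b) := by rw [hY b a]; ring
      rw [h2, h4]
      have h5 : (c : ℝ) = (E'.card : ℝ) + 2 := by rw [← hc1]; push_cast; ring
      rw [h5]
      linarith

/-- **The quadratic inequality.** -/
theorem core_hom {Y : ι → ι → ℝ} {m : ι → ℝ} (hY : ∀ a b, Y a b = Y b a) (hd : ∀ a, Y a a ≤ 0)
    (hm : ∀ a, 0 ≤ m a) (E : Finset (ι × ι)) (hE : TG E)
    (hK : ∀ a b, (a, b) ∈ E → EK (Y a b) (-Y a a) (-Y b b)) :
    ∑ p ∈ E, Y p.1 p.2 * (m p.1 * m p.2) + ∑ a, Y a a * m a ^ 2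
      ≤ (E.card : ℝ) / 56 * (∑ a, m a) ^ 2 := by
  obtain ⟨s, hs⟩ : ∃ s, s = ∑ a, m a := ⟨_, rfl⟩
  have hs0 : 0 ≤ s := by rw [hs]; exact Finset.sum_nonneg fun a _ => hm a
  rw [← hs]
  rcases hs0.eq_or_lt with h0 | h0
  · have hm0 : ∀ a, m a = 0 := by
      intro a
      have : m a ≤ s := by rw [hs]; exact Finset.single_le_sum (fun x _ => hm x) (mem_univ a)
      exact le_antisymm (by linarith) (hm a)
    simp [hm0, ← h0]
  · have h1 := core hY hd (w := fun a => m a / s) (fun a => div_nonneg (hm a) hs0)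
      (by rw [← Finset.sum_div, ← hs]; exact div_self h0.ne') E.card E rfl hE hK
    have e1 : ∑ p ∈ E, Y p.1 p.2 * (m p.1 / s * (m p.2 / s))
        = (∑ p ∈ E, Y p.1 p.2 * (m p.1 * m p.2)) / s ^ 2 := by
      rw [Finset.sum_div]
      refine Finset.sum_congr rfl fun p _ => ?_
      field_simp
    have e2 : ∑ a, Y a a * (m a / s) ^ 2 = (∑ a, Y a a * m a ^ 2) / s ^ 2 := by
      rw [Finset.sum_div]
      refine Finset.sum_congr rfl fun a _ => ?_
      field_simp
    rw [e1, e2, ← add_div, div_le_iff₀ (by positivity)] at h1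
    exact h1

end Pool.Agent.H99.TF
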