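import Mathlib
import Pool.Agent.H22.F10f644.Lower
import Pool.Agent.H99.CP.Comb
import Pool.Agent.H99.TF.Graph
import Pool.Agent.H99.TF.Trans

/-!
# Clique blow-ups of triangle-free graphs: the constant `1/56`
-/

open Finset Filter

namespace Pool.Agent.H99.TF

open Pool.Agent.H22.F10f644 Pool.Agent.H29.CPR Pool.Agent.H69.CPR Pool.Agent.H99.CP

/-- `G` is a clique blow-up of a triangle-free graph: there are a triangle-free graph `R` and a
map `φ` of the vertices of `G` to those of `R` such that distinct vertices `u`, `v` of `G` are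
adjacent exactly when `φ u = φ v` or `φ u`, `φ v` are adjacent in `R`. -/
def IsTFBlowup {n : ℕ} (G : SimpleGraph (Fin n)) : Prop :=
  ∃ (W : Type) (R : SimpleGraph W) (φ : Fin n → W), R.CliqueFree 3 ∧
    ∀ u v, G.Adj u v ↔ u ≠ v ∧ (φ u = φ v ∨ R.Adj (φ u) (φ v))

/-- no three distinct members of `𝒮` intersect pairwise -/
def TFam {k : ℕ} (𝒮 : Finset (Finset (Fin k))) : Prop :=
  ∀ A ∈ 𝒮, ∀ B ∈ 𝒮, ∀ C ∈ 𝒮, A ≠ B → B ≠ C → A ≠ C →
    (A ∩ B).Nonempty → (B ∩ C).Nonempty → ¬ (A ∩ C).Nonempty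

section kernel

variable {k : ℕ} {Y : Finset (Fin k) → Finset (Fin k) → ℝ}

theorem ek_of_tmk (hY : TMK Y) {A B : Finset (Fin k)} (hne : A ≠ B) (hAB : (A ∩ B).Nonempty) :
    EK (Y A B) (-Y A A) (-Y B B) := by
  intro p q
  obtain ⟨n, hn⟩ : ∃ n : Finset (Fin k) → ℕ,
      n = fun C => (if C = A then p else 0) + (if C = B then q else 0) := ⟨_, rfl⟩
  have hsupp : ∀ C, n C ≠ 0 → C = A ∨ C = B := by
    intro C hC
    by_contra hcon
    push Not at hcon
    apply hC
    rw [hn]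
    simp [hcon.1, hcon.2]
  have hAne : (A ∩ A).Nonempty := by
    rw [Finset.inter_self]
    exact hAB.mono Finset.inter_subset_left
  have hBne : (B ∩ B).Nonempty := by
    rw [Finset.inter_self]
    exact hAB.mono Finset.inter_subset_right
  have h := hY.pat n (by
    intro C D hC hD
    rcases hsupp C hC with rfl | rfl <;> rcases hsupp D hD with rfl | rfl
    · exact hAne
    · exact hAB
    · rw [Finset.inter_comm]; exact hAB
    · exact hBne)
  have hsum : ∀ f : Finset (Fin k) → ℝ, ∑ C, f C * (n C : ℝ) = f A * p + f B * q := by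
    intro f
    rw [hn]
    push_cast
    simp only [mul_add, Finset.sum_add_distrib, mul_ite, mul_zero, Finset.sum_ite_eq',
      Finset.mem_univ, if_true]
  have h1 : ∑ C, ∑ D, Y C D * ((n C : ℝ) * (n D : ℝ))
      = (Y A A * p + Y A B * q) * p + (Y B A * p + Y B B * q) * q := by
    have e : ∀ C, ∑ D, Y C D * ((n C : ℝ) * (n D : ℝ)) = (Y C A * p + Y C B * q) * (n C : ℝ) := by
      intro C
      rw [← hsum (fun D => Y C D), Finset.sum_mul]
      refine Finset.sum_congr rfl fun D _ => ?_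
      ring
    rw [Finset.sum_congr rfl fun C _ => e C]
    exact hsum (fun C => Y C A * p + Y C B * q)
  have h2 : ∑ C, Y C C * (n C : ℝ) = Y A A * p + Y B B * q := hsum (fun C => Y C C)
  rw [h1, h2, hY.sym B A] at h
  nlinarith

/-- the ordered pairs of distinct intersecting members -/
def EE {k : ℕ} (𝒮 : Finset (Finset (Fin k))) : Finset (Finset (Fin k) × Finset (Fin k)) :=
  univ.filter fun p => p.1 ∈ 𝒮 ∧ p.2 ∈ 𝒮 ∧ p.1 ≠ p.2 ∧ (p.1 ∩ p.2).Nonempty

theorem mem_EE {𝒮 : Finset (Finset (Fin k))} {A B : Finset (Fin k)} :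
    (A, B) ∈ EE 𝒮 ↔ A ∈ 𝒮 ∧ B ∈ 𝒮 ∧ A ≠ B ∧ (A ∩ B).Nonempty := by
  simp [EE]

theorem tg_EE {𝒮 : Finset (Finset (Fin k))} (h : TFam 𝒮) : TG (EE 𝒮) := by
  refine ⟨?_, ?_⟩
  · intro A B hAB
    rw [mem_EE] at hAB ⊢
    exact ⟨hAB.2.1, hAB.1, hAB.2.2.1.symm, by rw [Finset.inter_comm]; exact hAB.2.2.2⟩
  · intro A B C hAB hBC hAC
    rw [mem_EE] at hAB hBC hAC
    exact h A hAB.1 B hAB.2.1 C hBC.2.1 hAB.2.2.1 hBC.2.2.1 hAC.2.2.1 hAB.2.2.2 hBC.2.2.2
      hAC.2.2.2

theorem card_EE {𝒮 : Finset (Finset (Fin k))} (h : TFam 𝒮) : (EE 𝒮).card ≤ 2 * k := by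
  classical
  rcases Nat.eq_zero_or_pos k with hk | hk
  · subst hk
    have : EE 𝒮 = ∅ := by
      rw [Finset.eq_empty_iff_forall_notMem]
      rintro ⟨A, B⟩ hp
      rw [mem_EE] at hp
      obtain ⟨i, -⟩ := hp.2.2.2
      exact i.elim0
    rw [this]
    simp
  have i0 : Fin k := ⟨0, hk⟩
  let g : Finset (Fin k) × Finset (Fin k) → Fin k := fun p =>
    if hp : (p.1 ∩ p.2).Nonempty then hp.choose else i0
  have hg : ∀ A B, (A, B) ∈ EE 𝒮 → g (A, B) ∈ A ∩ B := by
    intro A B hp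
    rw [mem_EE] at hp
    have : g (A, B) = hp.2.2.2.choose := by
      simp only [g]
      rw [dif_pos hp.2.2.2]
    rw [this]
    exact hp.2.2.2.choose_spec
  have h1 : (EE 𝒮).card ≤ 2 * ((EE 𝒮).image g).card := by
    refine Finset.card_le_mul_card_image (EE 𝒮) 2 ?_
    intro i hi
    obtain ⟨⟨A, B⟩, hp, rfl⟩ := Finset.mem_image.1 hi
    have hsub : (EE 𝒮).filter (fun q => g q = g (A, B)) ⊆ {(A, B), (B, A)} := by
      rintro ⟨A', B'⟩ hq
      rw [Finset.mem_filter] at hq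
      obtain ⟨hq, hgq⟩ := hq
      have m1 := hg A B hp
      have m2 := hg A' B' hq
      rw [hgq] at m2
      rw [Finset.mem_inter] at m1 m2
      rw [mem_EE] at hp hq
      have hthree : ∀ C ∈ 𝒮, g (A, B) ∈ C → C = A ∨ C = B := by
        intro C hC hgC
        by_contra hcon
        push Not at hcon
        exact h A hp.1 B hp.2.1 C hC hp.2.2.1 (fun he => hcon.2 he.symm) (fun he => hcon.1 he.symm)
          hp.2.2.2 ⟨_, Finset.mem_inter.2 ⟨m1.2, hgC⟩⟩ ⟨_, Finset.mem_inter.2 ⟨m1.1, hgC⟩⟩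
      rw [Finset.mem_insert, Finset.mem_singleton, Prod.mk.injEq, Prod.mk.injEq]
      rcases hthree A' hq.1 m2.1 with e1 | e1 <;> rcases hthree B' hq.2.1 m2.2 with e2 | e2
      · exact absurd (e1.trans e2.symm) hq.2.2.1
      · exact Or.inl ⟨e1, e2⟩
      · exact Or.inr ⟨e1, e2⟩
      · exact absurd (e1.trans e2.symm) hq.2.2.1
    exact (Finset.card_le_card hsub).trans Finset.card_le_two
  have h2 : ((EE 𝒮).image g).card ≤ k := by
    have := Finset.card_le_univ ((EE 𝒮).image g)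
    rwa [Fintype.card_fin] at this
  omega

theorem qf_le (hY : TMK Y) {𝒮 : Finset (Finset (Fin k))} (h : TFam 𝒮) (m : Finset (Fin k) → ℝ)
    (hm : ∀ A, 0 ≤ m A) (hmS : ∀ A, A ∉ 𝒮 → m A = 0) :
    qf Y m ≤ 2 * ((k : ℝ) / 56) * (∑ A, m A) ^ 2 := by
  have h1 : qf Y m = ∑ p ∈ EE 𝒮, Y p.1 p.2 * (m p.1 * m p.2) + ∑ A, Y A A * m A ^ 2 := by
    have e1 : ∑ p ∈ EE 𝒮, Y p.1 p.2 * (m p.1 * m p.2)
        = ∑ A, ∑ B, if (A, B) ∈ EE 𝒮 then Y A B * (m A * m B) else 0 := by
      rw [sum_E (EE 𝒮) (fun A B => Y A B * (m A * m B))]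
      refine Finset.sum_congr rfl fun A _ => ?_
      unfold nb
      rw [Finset.sum_filter]
    have e2 : ∑ A, Y A A * m A ^ 2 = ∑ A, ∑ B, if A = B then Y A A * m A ^ 2 else 0 := by
      refine Finset.sum_congr rfl fun A _ => ?_
      rw [Finset.sum_ite_eq]
      simp
    rw [e1, e2, ← Finset.sum_add_distrib]
    unfold qf
    refine Finset.sum_congr rfl fun A _ => ?_
    rw [← Finset.sum_add_distrib]
    refine Finset.sum_congr rfl fun B _ => ?_
    by_cases hAB : A = B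
    · subst hAB
      rw [if_neg ((tg_EE h).irr A), if_pos rfl]
      ring
    · rw [if_neg hAB, add_zero]
      by_cases hE : (A, B) ∈ EE 𝒮
      · rw [if_pos hE]
      · rw [if_neg hE]
        by_cases hA : A ∈ 𝒮
        · by_cases hB : B ∈ 𝒮
          · have hn : ¬ (A ∩ B).Nonempty := fun hn => hE (mem_EE.2 ⟨hA, hB, hAB, hn⟩)
            rw [hY.adj A B hn, zero_mul]
          · rw [hmS B hB]
            ring
        · rw [hmS A hA]
          ring
  rw [h1]
  have h2 := core_hom hY.sym hY.diag hm (EE 𝒮) (tg_EE h) (fun A B hAB => by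
    rw [mem_EE] at hAB
    exact ek_of_tmk hY hAB.2.2.1 hAB.2.2.2)
  have h3 : ((EE 𝒮).card : ℝ) ≤ 2 * k := by exact_mod_cast card_EE h
  have h4 : ((EE 𝒮).card : ℝ) / 56 * (∑ A, m A) ^ 2 ≤ (2 * k) / 56 * (∑ A, m A) ^ 2 :=
    mul_le_mul_of_nonneg_right (by linarith) (sq_nonneg _)
  have h5 : (2 * (k : ℝ)) / 56 * (∑ A, m A) ^ 2 = 2 * ((k : ℝ) / 56) * (∑ A, m A) ^ 2 := by ring
  linarith

end kernel

/-- the types of a minimum clique cover, made constant on the classes of `φ` -/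
theorem exists_types_tf {n k : ℕ} (G : SimpleGraph (Fin n)) (hG : IsTFBlowup G)
    (F : Finset (Finset (Fin n))) (hF : IsCliqueCover G F) (hk : F.card = k) :
    ∃ S : Fin n → Finset (Fin k), G = tg S ∧ TFam (insert ∅ (univ.image S)) := by
  classical
  obtain ⟨W, R, φ, hR, hadj⟩ := hG
  let e : F ≃ Fin k := (F.equivFin).trans (finCongr hk)
  obtain ⟨S, hS⟩ : ∃ S : Fin n → Finset (Fin k),
      S = fun v => univ.filter fun i => ∃ u ∈ (e.symm i).1, φ v = φ u := ⟨_, rfl⟩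
  have hmem : ∀ v i, i ∈ S v ↔ ∃ u ∈ (e.symm i).1, φ v = φ u := by
    intro v i
    rw [hS]
    simp
  have hφS : ∀ u v, φ u = φ v → S u = S v := by
    intro u v huv
    ext i
    rw [hmem, hmem, huv]
  have hadj' : ∀ u v, u ≠ v → (S u ∩ S v).Nonempty → φ u = φ v ∨ R.Adj (φ u) (φ v) := by
    rintro u v huv ⟨i, hi⟩
    rw [Finset.mem_inter, hmem, hmem] at hi
    obtain ⟨⟨u', hu', e1⟩, v', hv', e2⟩ := hi
    by_cases h' : u' = v'
    · left
      rw [e1, e2, h']
    · have h1 := (hF.1 _ (e.symm i).2).2 u' hu' v' hv' h'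
      rw [hadj] at h1
      rw [e1, e2]
      exact h1.2
  have hGS : G = tg S := by
    ext u v
    constructor
    · intro h
      obtain ⟨K, hK, hu, hv⟩ := hF.2 u v h
      refine ⟨h.ne, e ⟨K, hK⟩, ?_⟩
      rw [Finset.mem_inter, hmem, hmem]
      exact ⟨⟨u, by simpa using hu, rfl⟩, ⟨v, by simpa using hv, rfl⟩⟩
    · rintro ⟨hne, hi⟩
      rw [hadj]
      exact ⟨hne, hadj' u v hne hi⟩
  refine ⟨S, hGS, ?_⟩
  intro A hA B hB C hC hAB hBC hAC h1 h2 h3
  have him : ∀ A ∈ insert ∅ (univ.image S), A.Nonempty → ∃ v, S v = A := by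
    intro A hA hne
    rw [Finset.mem_insert] at hA
    rcases hA with h0 | h0
    · rw [h0] at hne
      exact absurd hne (by simp)
    · obtain ⟨v, -, hv⟩ := Finset.mem_image.1 h0
      exact ⟨v, hv⟩
  obtain ⟨a, rfl⟩ := him A hA (h1.mono Finset.inter_subset_left)
  obtain ⟨b, rfl⟩ := him B hB (h1.mono Finset.inter_subset_right)
  obtain ⟨c, rfl⟩ := him C hC (h2.mono Finset.inter_subset_right)
  have hφ : ∀ x y, S x ≠ S y → φ x ≠ φ y := fun x y hxy he => hxy (hφS x y he)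
  have hR' : ∀ x y, S x ≠ S y → (S x ∩ S y).Nonempty → R.Adj (φ x) (φ y) := by
    intro x y hxy hi
    rcases hadj' x y (fun he => hxy (by rw [he])) hi with h' | h'
    · exact absurd h' (hφ x y hxy)
    · exact h'
  have r1 := hR' a b hAB h1
  have r2 := hR' b c hBC h2
  have r3 := hR' a c hAC h3
  exact hR {φ a, φ b, φ c} (SimpleGraph.is3Clique_triple_iff.2 ⟨r1, r3, r2⟩)

/-- **Upper bound `1/56` for the clique blow-ups of triangle-free graphs.** -/
theorem upper (ε : ℝ) (hε : 0 < ε) :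
    ∃ n0 : ℕ, ∀ n : ℕ, n0 ≤ n → ∀ G : SimpleGraph (Fin n), IsTFBlowup G → G ≠ ⊥ →
      (cp G : ℝ) ≤ (1 / 56 + ε) * cc G * (n : ℝ) ^ 2 := by
  classical
  have h1 : ∀ (k : ℕ) (𝒮 : Finset (Finset (Fin k))), ∃ n0 : ℕ, ∅ ∈ 𝒮 → TFam 𝒮 →
      ∀ n : ℕ, n0 ≤ n → ∀ S : Fin n → Finset (Fin k), (∀ v, S v ∈ 𝒮) →
      (cp (tg S) : ℝ) ≤ ((k : ℝ) / 56 + ε) * (n : ℝ) ^ 2 := by
    intro k 𝒮
    by_cases hyp : ∅ ∈ 𝒮 ∧ TFam 𝒮
    · obtain ⟨C, hC⟩ := dualBoundOn_of_kernel 𝒮 ((k : ℝ) / 56) (by positivity)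
        (fun Y hY m hm hmS => qf_le hY hyp.2 m hm hmS) (ε / 2) (by linarith)
      obtain ⟨n0, hn0⟩ := transferOn hyp.1 (by positivity) hC (ε / 2) (by linarith)
      refine ⟨n0, fun _ _ n hn S hS => ?_⟩
      have := hn0 n hn S hS
      have e : (k : ℝ) / 56 + ε / 2 + ε / 2 = (k : ℝ) / 56 + ε := by ring
      rw [e] at this
      exact this
    · exact ⟨0, fun h h' => absurd ⟨h, h'⟩ hyp⟩
  choose n0 hn0 using h1
  refine ⟨(Finset.range 28).sup fun k => (univ : Finset (Finset (Finset (Fin k)))).sup (n0 k),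
    fun n hn G hG hGne => ?_⟩
  obtain ⟨F, hF, hFc⟩ := cc_spec G
  set k := cc G with hk
  have hkpos : 1 ≤ k := by
    rw [Nat.one_le_iff_ne_zero]
    intro h0
    rw [h0, Finset.card_eq_zero] at hFc
    apply hGne
    ext u v
    simp only [SimpleGraph.bot_adj, iff_false]
    intro huv
    obtain ⟨K, hK, -⟩ := hF.2 u v huv
    rw [hFc] at hK
    exact absurd hK (Finset.notMem_empty K)
  have hkr : (1 : ℝ) ≤ k := by exact_mod_cast hkpos
  by_cases hkK : k < 28
  · obtain ⟨S, hS, hT⟩ := exists_types_tf G hG F hF hFc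
    have h2 : n0 k (insert ∅ (univ.image S)) ≤ n := by
      refine le_trans ?_ hn
      refine le_trans ?_ (Finset.le_sup (f := fun k =>
        (univ : Finset (Finset (Finset (Fin k)))).sup (n0 k)) (Finset.mem_range.2 hkK))
      exact Finset.le_sup (f := n0 k) (Finset.mem_univ _)
    have h3 := hn0 k _ (Finset.mem_insert_self _ _) hT n h2 S
      (fun v => Finset.mem_insert_of_mem (Finset.mem_image_of_mem _ (Finset.mem_univ _)))
    rw [← hS] at h3
    refine h3.trans ?_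
    apply mul_le_mul_of_nonneg_right _ (by positivity)
    nlinarith
  · push Not at hkK
    refine (two_mul_cp_le G).trans ?_
    have h2 : (28 : ℝ) ≤ k := by exact_mod_cast hkK
    have h3 : 1 / 2 ≤ (1 / 56 + ε) * k := by nlinarith
    nlinarith [sq_nonneg (n : ℝ)]

/-- the star with four leaves -/
def star4 : SimpleGraph (Fin 5) where
  Adj x y := x ≠ y ∧ (x = 0 ∨ y = 0)
  symm := ⟨fun _ _ h => ⟨h.1.symm, h.2.symm⟩⟩
  loopless := ⟨fun _ h => h.1 rfl⟩

instance : DecidableRel star4.Adj := fun x y => by unfold star4; infer_instance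

theorem star4_free : star4.CliqueFree 3 := by
  intro t ht
  obtain ⟨a, b, c, hab, hac, hbc, -⟩ := SimpleGraph.is3Clique_iff.1 ht
  revert a b c
  decide

/-- the block of the star -/
def blk (a : Fin 7) : Fin 5 := if a.val ≤ 2 then 0 else ⟨a.val - 2, by omega⟩

theorem blk_adj : ∀ a b : Fin 7, blockAdj a b ↔ (blk a = blk b ∨ star4.Adj (blk a) (blk b)) := by
  decide

/-- **Lower bound `1/56`.** -/
theorem lower (m : ℕ) (hm : 0 < m) : ∃ G : SimpleGraph (Fin (7 * m)), IsTFBlowup G ∧ G ≠ ⊥ ∧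
    1 / 56 * ((7 * m : ℕ) : ℝ) ^ 2 < (cp G : ℝ) / (cc G : ℝ) := by
  classical
  set e : Fin (7 * m) ≃ Fin 7 × Fin m := finProdFinEquiv.symm with he
  have hbot : (starGraph m).comap e ≠ ⊥ := by
    intro hbot
    have h1 : ((starGraph m).comap e).Adj (e.symm ((0 : Fin 7), ⟨0, hm⟩))
        (e.symm ((1 : Fin 7), ⟨0, hm⟩)) := by
      rw [SimpleGraph.comap_adj, Equiv.apply_symm_apply, Equiv.apply_symm_apply]
      exact ⟨by simp, Or.inl (by simp)⟩
    rw [hbot] at h1
    exact h1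
  refine ⟨(starGraph m).comap e, ?_, hbot, ?_⟩
  · refine ⟨Fin 5, star4, fun v => blk (e v).1, star4_free, ?_⟩
    intro u v
    rw [SimpleGraph.comap_adj, ← blk_adj]
    constructor
    · rintro ⟨h1, h2⟩
      exact ⟨fun h => h1 (by rw [h]), h2⟩
    · rintro ⟨h1, h2⟩
      exact ⟨fun h => h1 (e.injective h), h2⟩
  · have hcover := (isCliqueCover_star m hm).comap e
    have hcc : cc ((starGraph m).comap e) ≤ 4 := by
      refine (cc_le _ _ hcover).trans ?_
      rw [Finset.card_map]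
      refine Finset.card_image_le.trans ?_
      simp
    have hccpos : 0 < cc ((starGraph m).comap e) := cc_pos _ hbot _ hcover
    have hcp : ∀ F : Finset (Finset (Fin (7 * m))), IsCliquePartition ((starGraph m).comap e) F →
        7 * m ^ 2 + 11 * m ≤ 2 * F.card := by
      intro F hF
      have h1 := hF.comap e.symm
      have h2 : ((starGraph m).comap e).comap e.symm = starGraph m := by
        ext a b
        simp
      rw [h2] at h1
      have := partition_card m _ h1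
      rwa [Finset.card_map] at this
    have hcp2 : 7 * m ^ 2 + 11 * m ≤ 2 * cp ((starGraph m).comap e) := by
      have := le_cp ((starGraph m).comap e) ((7 * m ^ 2 + 11 * m + 1) / 2) (fun F hF => by
        have := hcp F hF
        omega)
      omega
    have hcp3 : (7 * (m : ℝ) ^ 2 + 11 * m) ≤ 2 * (cp ((starGraph m).comap e) : ℝ) := by
      exact_mod_cast hcp2
    have hcc4 : (cc ((starGraph m).comap e) : ℝ) ≤ 4 := by exact_mod_cast hcc
    have hcc0 : (0 : ℝ) < (cc ((starGraph m).comap e) : ℝ) := by exact_mod_cast hccpos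
    have hm0 : (0 : ℝ) < m := by exact_mod_cast hm
    rw [lt_div_iff₀ hcc0]
    push_cast
    have : (1 : ℝ) / 56 * (7 * (m : ℝ)) ^ 2 * (cc ((starGraph m).comap e) : ℝ)
        ≤ 1 / 56 * (7 * (m : ℝ)) ^ 2 * 4 :=
      mul_le_mul_of_nonneg_left hcc4 (by positivity)
    nlinarith

end Pool.Agent.H99.TF
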