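import Mathlib
import Pool.Agent.H99.TF.Final

/-!
# Graphs with few twin-free triangles

A triangle is twin-free if its vertices have pairwise distinct closed neighbourhoods.  The graphs
without twin-free triangles are the clique blow-ups of triangle-free graphs.
-/

open Finset Filter

namespace Pool.Agent.H99.TF

open Pool.Agent.H22.F10f644 Pool.Agent.H29.CPR Pool.Agent.H69.CPR Pool.Agent.H99.CP

/-- closed neighbourhood -/
def clN {n : ℕ} (G : SimpleGraph (Fin n)) (v : Fin n) : Set (Fin n) := {w | w = v ∨ G.Adj v w}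

open Classical in
/-- the ordered triples of pairwise adjacent vertices with pairwise distinct closed
neighbourhoods -/
noncomputable def twinFreeTriples {n : ℕ} (G : SimpleGraph (Fin n)) :
    Finset (Fin n × Fin n × Fin n) :=
  univ.filter fun t => (G.Adj t.1 t.2.1 ∧ G.Adj t.2.1 t.2.2 ∧ G.Adj t.1 t.2.2) ∧
    clN G t.1 ≠ clN G t.2.1 ∧ clN G t.2.1 ≠ clN G t.2.2 ∧ clN G t.1 ≠ clN G t.2.2

theorem mem_tft {n : ℕ} {G : SimpleGraph (Fin n)} {a b c : Fin n} :
    (a, b, c) ∈ twinFreeTriples G ↔ (G.Adj a b ∧ G.Adj b c ∧ G.Adj a c) ∧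
      clN G a ≠ clN G b ∧ clN G b ≠ clN G c ∧ clN G a ≠ clN G c := by
  unfold twinFreeTriples
  simp

theorem mem_clN {n : ℕ} {G : SimpleGraph (Fin n)} {v w : Fin n} :
    w ∈ clN G v ↔ w = v ∨ G.Adj v w := Iff.rfl

/-- adjacency is determined by the closed neighbourhoods -/
theorem adj_of_twins {n : ℕ} {G : SimpleGraph (Fin n)} {u v u' v' : Fin n} (hne : u ≠ v)
    (hu : clN G u = clN G u') (hv : clN G v = clN G v') (h : u' = v' ∨ G.Adj u' v') :
    G.Adj u v := by
  have h1 : v' ∈ clN G u' := by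
    rw [mem_clN]
    rcases h with h | h
    · exact Or.inl h.symm
    · exact Or.inr h
  rw [← hu, mem_clN] at h1
  have h2 : u ∈ clN G v' := by
    rw [mem_clN]
    rcases h1 with h1 | h1
    · exact Or.inl h1.symm
    · exact Or.inr h1.symm
  rw [← hv, mem_clN] at h2
  rcases h2 with h2 | h2
  · exact absurd h2 hne
  · exact h2.symm

/-- **The graphs without twin-free triangles are the clique blow-ups of triangle-free graphs.** -/
theorem isTFBlowup_iff {n : ℕ} (G : SimpleGraph (Fin n)) :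
    IsTFBlowup G ↔ twinFreeTriples G = ∅ := by
  classical
  constructor
  · rintro ⟨W, R, φ, hR, hadj⟩
    rw [Finset.eq_empty_iff_forall_notMem]
    rintro ⟨a, b, c⟩ ht
    rw [mem_tft] at ht
    obtain ⟨⟨hab, hbc, hac⟩, n1, n2, n3⟩ := ht
    have htw : ∀ x y, φ x = φ y → clN G x = clN G y := by
      intro x y hxy
      ext w
      rw [mem_clN, mem_clN]
      constructor
      · rintro (rfl | h)
        · by_cases h' : w = y
          · exact Or.inl h'
          · right
            rw [hadj]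
            exact ⟨fun he => h' he.symm, Or.inl hxy.symm⟩
        · by_cases h' : w = y
          · exact Or.inl h'
          · right
            rw [hadj] at h ⊢
            rw [← hxy]
            exact ⟨fun he => h' he.symm, h.2⟩
      · rintro (rfl | h)
        · by_cases h' : w = x
          · exact Or.inl h'
          · right
            rw [hadj]
            exact ⟨fun he => h' he.symm, Or.inl hxy⟩
        · by_cases h' : w = x
          · exact Or.inl h'
          · right
            rw [hadj] at h ⊢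
            rw [hxy]
            exact ⟨fun he => h' he.symm, h.2⟩
    have hR' : ∀ x y, G.Adj x y → clN G x ≠ clN G y → R.Adj (φ x) (φ y) := by
      intro x y hxy hne
      rw [hadj] at hxy
      rcases hxy.2 with h | h
      · exact absurd (htw x y h) hne
      · exact h
    exact hR {φ a, φ b, φ c} (SimpleGraph.is3Clique_triple_iff.2
      ⟨hR' a b hab n1, hR' a c hac n3, hR' b c hbc n2⟩)
  · intro h
    let R : SimpleGraph (Set (Fin n)) :=
      { Adj := fun X Z => X ≠ Z ∧ ∃ u v, clN G u = X ∧ clN G v = Z ∧ G.Adj u v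
        symm := ⟨by
          rintro X Z ⟨h1, u, v, h2, h3, h4⟩
          exact ⟨h1.symm, v, u, h3, h2, h4.symm⟩⟩
        loopless := ⟨fun X h => h.1 rfl⟩ }
    have hRadj : ∀ X Z, R.Adj X Z ↔ X ≠ Z ∧ ∃ u v, clN G u = X ∧ clN G v = Z ∧ G.Adj u v :=
      fun X Z => Iff.rfl
    refine ⟨Set (Fin n), R, clN G, ?_, ?_⟩
    · intro t ht
      obtain ⟨X, Z, T, h1, h2, h3, -⟩ := SimpleGraph.is3Clique_iff.1 ht
      rw [hRadj] at h1 h2 h3
      obtain ⟨n1, u, v, rfl, rfl, a1⟩ := h1
      obtain ⟨n2, u', w, e1, rfl, a2⟩ := h2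
      obtain ⟨n3, v', w', e2, e3, a3⟩ := h3
      have hmem : (u, v, w) ∈ twinFreeTriples G := by
        rw [mem_tft]
        refine ⟨⟨a1, ?_, ?_⟩, n1, n3, n2⟩
        · exact adj_of_twins (fun he => n3 (by rw [he])) e2.symm e3.symm (Or.inr a3)
        · exact adj_of_twins (fun he => n2 (by rw [he])) e1.symm rfl (Or.inr a2)
      rw [h] at hmem
      exact absurd hmem (Finset.notMem_empty _)
    · intro u v
      rw [hRadj]
      constructor
      · intro huv
        refine ⟨huv.ne, ?_⟩
        by_cases he : clN G u = clN G v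
        · exact Or.inl he
        · exact Or.inr ⟨he, u, v, rfl, rfl, huv⟩
      · rintro ⟨hne, he | ⟨-, u', v', e1, e2, h'⟩⟩
        · exact adj_of_twins hne he rfl (Or.inl rfl)
        · exact adj_of_twins hne e1.symm e2.symm (Or.inr h')

/-- the types of a clique cover, made constant on the classes of twins -/
theorem exists_types_twin {n k : ℕ} (G : SimpleGraph (Fin n))
    (F : Finset (Finset (Fin n))) (hF : IsCliqueCover G F) (hk : F.card = k) :
    ∃ S : Fin n → Finset (Fin k), G = tg S ∧ ∀ u v, clN G u = clN G v → S u = S v := by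
  classical
  let e : F ≃ Fin k := (F.equivFin).trans (finCongr hk)
  obtain ⟨S, hS⟩ : ∃ S : Fin n → Finset (Fin k),
      S = fun v => univ.filter fun i => ∃ u ∈ (e.symm i).1, clN G v = clN G u := ⟨_, rfl⟩
  have hmem : ∀ v i, i ∈ S v ↔ ∃ u ∈ (e.symm i).1, clN G v = clN G u := by
    intro v i
    rw [hS]
    simp
  refine ⟨S, ?_, ?_⟩
  · ext u v
    constructor
    · intro h
      obtain ⟨K, hK, hu, hv⟩ := hF.2 u v h
      refine ⟨h.ne, e ⟨K, hK⟩, ?_⟩
      rw [Finset.mem_inter, hmem, hmem]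
      exact ⟨⟨u, by simpa using hu, rfl⟩, ⟨v, by simpa using hv, rfl⟩⟩
    · rintro ⟨hne, i, hi⟩
      rw [Finset.mem_inter, hmem, hmem] at hi
      obtain ⟨⟨u', hu', e1⟩, v', hv', e2⟩ := hi
      refine adj_of_twins hne e1 e2 ?_
      by_cases h' : u' = v'
      · exact Or.inl h'
      · exact Or.inr ((hF.1 _ (e.symm i).2).2 u' hu' v' hv' h')
  · intro u v huv
    ext i
    rw [hmem, hmem, huv]

/-- adding the edges at a few vertices -/
theorem cp_le_add {n : ℕ} (G G' : SimpleGraph (Fin n)) (U : Finset (Fin n)) (hle : G' ≤ G)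
    (hU : ∀ u v, G.Adj u v → ¬ G'.Adj u v → u ∈ U ∨ v ∈ U) :
    cp G ≤ cp G' + U.card * n := by
  classical
  obtain ⟨F, hF, hFc⟩ : ∃ F : Finset (Finset (Fin n)), IsCliquePartition G' F ∧ F.card = cp G' := by
    have hne : {m | ∃ F : Finset (Finset (Fin n)), IsCliquePartition G' F ∧ F.card = m}.Nonempty := by
      obtain ⟨F, hF⟩ := exists_partition G'
      exact ⟨F.card, F, hF, rfl⟩
    exact Nat.sInf_mem hne
  obtain ⟨E, hE⟩ : ∃ E : Finset (Finset (Fin n)), E = ((U ×ˢ (univ : Finset (Fin n))).filter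
      (fun p => G.Adj p.1 p.2 ∧ ¬ G'.Adj p.1 p.2)).image (fun p => {p.1, p.2}) := ⟨_, rfl⟩
  have hmemE : ∀ K, K ∈ E ↔ ∃ u ∈ U, ∃ v, (G.Adj u v ∧ ¬ G'.Adj u v) ∧ {u, v} = K := by
    intro K
    rw [hE, Finset.mem_image]
    constructor
    · rintro ⟨⟨u, v⟩, hp, rfl⟩
      rw [Finset.mem_filter, Finset.mem_product] at hp
      exact ⟨u, hp.1.1, v, hp.2, rfl⟩
    · rintro ⟨u, hu, v, h, rfl⟩
      exact ⟨(u, v), by rw [Finset.mem_filter, Finset.mem_product]; exact ⟨⟨hu, mem_univ _⟩, h⟩, rfl⟩
  have hEc : E.card ≤ U.card * n := by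
    rw [hE]
    refine Finset.card_image_le.trans ((Finset.card_filter_le _ _).trans ?_)
    rw [Finset.card_product, Finset.card_univ, Fintype.card_fin]
  have hpart : IsCliquePartition G (F ∪ E) := by
    constructor
    · intro K hK
      rw [Finset.mem_union] at hK
      rcases hK with hK | hK
      · refine ⟨(hF.1 K hK).1, fun u hu v hv huv => hle ((hF.1 K hK).2 u hu v hv huv)⟩
      · obtain ⟨u, hu, v, h, rfl⟩ := (hmemE K).1 hK
        refine ⟨by rw [Finset.card_pair h.1.ne], ?_⟩
        intro x hx y hy hxy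
        simp only [Finset.mem_insert, Finset.mem_singleton] at hx hy
        rcases hx with rfl | rfl <;> rcases hy with rfl | rfl
        · exact absurd rfl hxy
        · exact h.1
        · exact h.1.symm
        · exact absurd rfl hxy
    · intro u v huv
      have key : ∀ K ∈ E, u ∈ K → v ∈ K → K = {u, v} ∧ ¬ G'.Adj u v := by
        intro K hK hu hv
        obtain ⟨a, ha, b, h, rfl⟩ := (hmemE K).1 hK
        simp only [Finset.mem_insert, Finset.mem_singleton] at hu hv
        rcases hu with rfl | rfl <;> rcases hv with rfl | rfl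
        · exact absurd rfl huv.ne
        · exact ⟨rfl, h.2⟩
        · exact ⟨Finset.pair_comm _ _, fun h' => h.2 h'.symm⟩
        · exact absurd rfl huv.ne
      by_cases h' : G'.Adj u v
      · obtain ⟨K, ⟨hK, hu, hv⟩, huniq⟩ := hF.2 u v h'
        refine ⟨K, ⟨Finset.mem_union_left _ hK, hu, hv⟩, ?_⟩
        rintro K' ⟨hK', hu', hv'⟩
        rw [Finset.mem_union] at hK'
        rcases hK' with hK' | hK'
        · exact huniq K' ⟨hK', hu', hv'⟩
        · exact absurd h' (key K' hK' hu' hv').2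
      · refine ⟨{u, v}, ⟨?_, by simp, by simp⟩, ?_⟩
        · refine Finset.mem_union_right _ ((hmemE _).2 ?_)
          rcases hU u v huv h' with hu | hv
          · exact ⟨u, hu, v, ⟨huv, h'⟩, rfl⟩
          · exact ⟨v, hv, u, ⟨huv.symm, fun h => h' h.symm⟩, Finset.pair_comm _ _⟩
        · rintro K' ⟨hK', hu', hv'⟩
          rw [Finset.mem_union] at hK'
          rcases hK' with hK' | hK'
          · exact absurd ((hF.1 K' hK').2 u hu' v hv' huv.ne) h'
          · exact (key K' hK' hu' hv').1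
  have h1 : cp G ≤ (F ∪ E).card := Nat.sInf_le ⟨_, hpart, rfl⟩
  have h2 := Finset.card_union_le F E
  omega

/-- **Upper bound `1/56` for the graphs with few twin-free triangles.** -/
theorem upper_robust (ε : ℝ) (hε : 0 < ε) :
    ∃ δ : ℝ, 0 < δ ∧ ∃ n0 : ℕ, ∀ n : ℕ, n0 ≤ n → ∀ G : SimpleGraph (Fin n),
      ((twinFreeTriples G).card : ℝ) ≤ δ * (n : ℝ) ^ 3 → G ≠ ⊥ →
      (cp G : ℝ) ≤ (1 / 56 + ε) * cc G * (n : ℝ) ^ 2 := by
  classical
  have h1 : ∀ (k : ℕ) (𝒮 : Finset (Finset (Fin k))), ∃ n0 : ℕ, ∅ ∈ 𝒮 → TFam 𝒮 →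
      ∀ n : ℕ, n0 ≤ n → ∀ S : Fin n → Finset (Fin k), (∀ v, S v ∈ 𝒮) →
      (cp (tg S) : ℝ) ≤ ((k : ℝ) / 56 + ε / 2) * (n : ℝ) ^ 2 := by
    intro k 𝒮
    by_cases hyp : ∅ ∈ 𝒮 ∧ TFam 𝒮
    · obtain ⟨C, hC⟩ := dualBoundOn_of_kernel 𝒮 ((k : ℝ) / 56) (by positivity)
        (fun Y hY m hm hmS => qf_le hY hyp.2 m hm hmS) (ε / 4) (by linarith)
      obtain ⟨n0, hn0⟩ := transferOn hyp.1 (by positivity) hC (ε / 4) (by linarith)
      refine ⟨n0, fun _ _ n hn S hS => ?_⟩
      have := hn0 n hn S hS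
      have e : (k : ℝ) / 56 + ε / 4 + ε / 4 = (k : ℝ) / 56 + ε / 2 := by ring
      rw [e] at this
      exact this
    · exact ⟨0, fun h h' => absurd ⟨h, h'⟩ hyp⟩
  choose n0 hn0 using h1
  obtain ⟨η, hη⟩ : ∃ η : ℝ, η = ε / 2 / 2 ^ 27 := ⟨_, rfl⟩
  have hη0 : 0 < η := by rw [hη]; positivity
  refine ⟨η ^ 3 / 2, by positivity,
    max 1 ((Finset.range 28).sup fun k => (univ : Finset (Finset (Finset (Fin k)))).sup (n0 k)),
    fun n hn G hG hGne => ?_⟩
  have hn1 : 1 ≤ n := (le_max_left _ _).trans hn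
  have hn1' : (1 : ℝ) ≤ n := by exact_mod_cast hn1
  have hn2 := (le_max_right _ _).trans hn
  obtain ⟨F, hF, hFc⟩ := cc_spec G
  set k := cc G with hk
  have hkpos : 1 ≤ k := by
    rw [Nat.one_le_iff_ne_zero]
    intro h0
    rw [h0, Finset.card_eq_zero] at hFc
    apply hGne
    ext u v
    simp only [SimpleGraph.bot_adj, iff_false]
    intro huv
    obtain ⟨K, hK, -⟩ := hF.2 u v huv
    rw [hFc] at hK
    exact absurd hK (Finset.notMem_empty K)
  have hkr : (1 : ℝ) ≤ k := by exact_mod_cast hkpos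
  by_cases hkK : k < 28
  swap
  · push Not at hkK
    refine (two_mul_cp_le G).trans ?_
    have h2 : (28 : ℝ) ≤ k := by exact_mod_cast hkK
    have h3 : 1 / 2 ≤ (1 / 56 + ε) * k := by nlinarith
    nlinarith [sq_nonneg (n : ℝ)]
  obtain ⟨S, hS, hST⟩ := exists_types_twin G F hF hFc
  -- the heavy types
  obtain ⟨fb, hfb⟩ : ∃ fb : Finset (Fin k) → Finset (Fin n), fb = fun A => univ.filter fun v => S v = A :=
    ⟨_, rfl⟩
  have hmemfb : ∀ A v, v ∈ fb A ↔ S v = A := by
    intro A v
    rw [hfb]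
    simp
  obtain ⟨H, hH⟩ : ∃ H : Finset (Finset (Fin k)), H = univ.filter fun A => η * n ≤ ((fb A).card : ℝ) :=
    ⟨_, rfl⟩
  have hmemH : ∀ A, A ∈ H ↔ η * n ≤ ((fb A).card : ℝ) := by
    intro A
    rw [hH]
    simp
  obtain ⟨S', hS'⟩ : ∃ S' : Fin n → Finset (Fin k), S' = fun v => if S v ∈ H then S v else ∅ :=
    ⟨_, rfl⟩
  have hTF : TFam (insert ∅ H) := by
    intro A hA B hB C hC hAB hBC hAC i1 i2 i3
    have hin : ∀ A ∈ insert ∅ H, A.Nonempty → A ∈ H := by
      intro A hA hne
      rcases Finset.mem_insert.1 hA with h | h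
      · rw [h] at hne
        exact absurd hne (by simp)
      · exact h
    have hA' := hin A hA (i1.mono Finset.inter_subset_left)
    have hB' := hin B hB (i1.mono Finset.inter_subset_right)
    have hC' := hin C hC (i2.mono Finset.inter_subset_right)
    have hsub : (fb A) ×ˢ ((fb B) ×ˢ (fb C)) ⊆ twinFreeTriples G := by
      rintro ⟨a, b, c⟩ ht
      rw [Finset.mem_product, Finset.mem_product] at ht
      simp only [hmemfb] at ht
      obtain ⟨ha, hb, hc⟩ := ht
      have hadj : ∀ x y, S x ≠ S y → (S x ∩ S y).Nonempty → G.Adj x y := by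
        intro x y hne hi
        rw [hS]
        exact ⟨fun he => hne (by rw [he]), hi⟩
      rw [mem_tft]
      refine ⟨⟨hadj a b (by rw [ha, hb]; exact hAB) (by rw [ha, hb]; exact i1),
        hadj b c (by rw [hb, hc]; exact hBC) (by rw [hb, hc]; exact i2),
        hadj a c (by rw [ha, hc]; exact hAC) (by rw [ha, hc]; exact i3)⟩, ?_, ?_, ?_⟩
      · intro he
        exact hAB (by rw [← ha, ← hb]; exact hST _ _ he)
      · intro he
        exact hBC (by rw [← hb, ← hc]; exact hST _ _ he)
      · intro he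
        exact hAC (by rw [← ha, ← hc]; exact hST _ _ he)
    have hcard := Finset.card_le_card hsub
    rw [Finset.card_product, Finset.card_product] at hcard
    have hcard' : ((fb A).card : ℝ) * (((fb B).card : ℝ) * ((fb C).card : ℝ))
        ≤ ((twinFreeTriples G).card : ℝ) := by exact_mod_cast hcard
    have a1 := (hmemH A).1 hA'
    have b1 := (hmemH B).1 hB'
    have c1 := (hmemH C).1 hC'
    have hηn : 0 < η * n := by positivity
    have h2 : (η * n) * ((η * n) * (η * n)) ≤ ((fb A).card : ℝ) * (((fb B).card : ℝ) * ((fb C).card : ℝ)) := by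
      apply mul_le_mul a1 _ (by positivity) (by positivity)
      exact mul_le_mul b1 c1 hηn.le (by positivity)
    have h3 : (η * n) * ((η * n) * (η * n)) = η ^ 3 * (n : ℝ) ^ 3 := by ring
    have h4 : 0 < η ^ 3 * (n : ℝ) ^ 3 := by positivity
    nlinarith
  have hS'H : ∀ v, S' v ∈ insert ∅ H := by
    intro v
    rw [hS']
    simp only
    split_ifs with h
    · exact Finset.mem_insert_of_mem h
    · exact Finset.mem_insert_self _ _
  have h2 : n0 k (insert ∅ H) ≤ n := by
    refine le_trans ?_ hn2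
    refine le_trans ?_ (Finset.le_sup (f := fun k =>
      (univ : Finset (Finset (Finset (Fin k)))).sup (n0 k)) (Finset.mem_range.2 hkK))
    exact Finset.le_sup (f := n0 k) (Finset.mem_univ _)
  have h3 := hn0 k _ (Finset.mem_insert_self _ _) hTF n h2 S' hS'H
  -- the light vertices
  obtain ⟨U, hU⟩ : ∃ U : Finset (Fin n), U = univ.filter fun v => S v ∉ H := ⟨_, rfl⟩
  have hmemU : ∀ v, v ∈ U ↔ S v ∉ H := by
    intro v
    rw [hU]
    simp
  have h4 : cp G ≤ cp (tg S') + U.card * n := by
    apply cp_le_add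
    · intro u v huv
      rw [hS]
      obtain ⟨hne, hi⟩ := huv
      refine ⟨hne, hi.mono ?_⟩
      apply Finset.inter_subset_inter
      · rw [hS']
        simp only
        split_ifs
        · exact Finset.Subset.refl _
        · exact Finset.empty_subset _
      · rw [hS']
        simp only
        split_ifs
        · exact Finset.Subset.refl _
        · exact Finset.empty_subset _
    · intro u v huv hn'
      by_contra hcon
      push Not at hcon
      rw [hmemU, hmemU, not_not, not_not] at hcon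
      apply hn'
      rw [hS] at huv
      refine ⟨huv.1, ?_⟩
      have e1 : S' u = S u := by rw [hS']; simp only; rw [if_pos hcon.1]
      have e2 : S' v = S v := by rw [hS']; simp only; rw [if_pos hcon.2]
      rw [e1, e2]
      exact huv.2
  have h5 : (U.card : ℝ) ≤ 2 ^ 27 * (η * n) := by
    have h6 : U.card ≤ ∑ A ∈ (univ : Finset (Finset (Fin k))).filter (fun A => A ∉ H), (fb A).card := by
      have h7 : U ⊆ ((univ : Finset (Finset (Fin k))).filter (fun A => A ∉ H)).biUnion fb := by
        intro v hv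
        rw [hmemU] at hv
        rw [Finset.mem_biUnion]
        exact ⟨S v, by simp [hv], (hmemfb _ _).2 rfl⟩
      exact (Finset.card_le_card h7).trans Finset.card_biUnion_le
    have h8 : (U.card : ℝ) ≤ ∑ A ∈ (univ : Finset (Finset (Fin k))).filter (fun A => A ∉ H),
        ((fb A).card : ℝ) := by exact_mod_cast h6
    refine h8.trans ?_
    have h9 : ∀ A ∈ (univ : Finset (Finset (Fin k))).filter (fun A => A ∉ H),
        ((fb A).card : ℝ) ≤ η * n := by
      intro A hA
      rw [Finset.mem_filter, hmemH] at hA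
      exact (not_le.1 hA.2).le
    refine (Finset.sum_le_card_nsmul _ _ _ h9).trans ?_
    rw [nsmul_eq_mul]
    apply mul_le_mul_of_nonneg_right _ (by positivity)
    have h10 : ((univ : Finset (Finset (Fin k))).filter (fun A => A ∉ H)).card ≤ 2 ^ 27 := by
      refine (Finset.card_filter_le _ _).trans ?_
      rw [Finset.card_univ, Fintype.card_finset, Fintype.card_fin]
      exact Nat.pow_le_pow_right (by norm_num) (by omega)
    exact_mod_cast h10
  have h6 : (cp G : ℝ) ≤ (cp (tg S') : ℝ) + U.card * n := by exact_mod_cast h4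
  have h7 : (U.card : ℝ) * n ≤ ε / 2 * (n : ℝ) ^ 2 := by
    have e : 2 ^ 27 * (η * n) = ε / 2 * n := by
      rw [hη]
      field_simp
    rw [e] at h5
    have := mul_le_mul_of_nonneg_right h5 (by linarith : (0 : ℝ) ≤ n)
    nlinarith
  have h8 : ((k : ℝ) / 56 + ε / 2) * (n : ℝ) ^ 2 + ε / 2 * (n : ℝ) ^ 2
      ≤ (1 / 56 + ε) * k * (n : ℝ) ^ 2 := by
    have : (k : ℝ) / 56 + ε / 2 + ε / 2 ≤ (1 / 56 + ε) * k := by nlinarith
    have := mul_le_mul_of_nonneg_right this (sq_nonneg (n : ℝ))
    linarith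
  linarith

end Pool.Agent.H99.TF
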